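import Mathlib

/-!
Alternating sums over simplicial complexes whose minimal non-faces have bounded size.
-/

set_option autoImplicit false

namespace Pool.Agent.Lib.Recon

open Finset

variable {U : Type*} [DecidableEq U]

open Classical in
/-- The weighted sum of `(-z)^|Q|` over the subsets `Q` of `N` satisfying `X`. -/
noncomputable def cxSum (z : ℝ) (N : Finset U) (X : Finset U → Prop) : ℝ :=
  ∑ Q ∈ N.powerset, if X Q then (-z) ^ Q.card else 0

/-- `X` is closed under taking subsets. -/
def CxDown (X : Finset U → Prop) : Prop :=
  ∀ P Q : Finset U, P ⊆ Q → X Q → X P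

/-- A subset of `N` all of whose subsets of size at most `r + 1` are faces is a face. -/
def CxCompact (r : ℕ) (N : Finset U) (X : Finset U → Prop) : Prop :=
  ∀ Q : Finset U, Q ⊆ N → (∀ P : Finset U, P ⊆ Q → P.card ≤ r + 1 → X P) → X Q

lemma cxSum_erase (z : ℝ) (N : Finset U) (X : Finset U → Prop) (v : U) (hv : v ∈ N) :
    cxSum z N X = cxSum z (N.erase v) X - z * cxSum z (N.erase v) (fun Q => X (insert v Q)) := by
  classical
  unfold cxSum
  conv_lhs => rw [← Finset.insert_erase hv]
  rw [Finset.sum_powerset_insert (Finset.notMem_erase v N)]
  rw [sub_eq_add_neg, ← neg_mul, Finset.mul_sum]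
  congr 1
  apply Finset.sum_congr rfl
  intro Q hQ
  have hvQ : v ∉ Q := fun h => (Finset.notMem_erase v N) (Finset.mem_powerset.mp hQ h)
  rw [Finset.card_insert_of_notMem hvQ]
  split_ifs
  · ring
  · ring

lemma cxDown_link {X : Finset U → Prop} (h : CxDown X) (v : U) :
    CxDown (fun Q => X (insert v Q)) := by
  intro P Q hPQ hQ
  exact h _ _ (Finset.insert_subset_insert v hPQ) hQ

lemma cxCompact_erase {X : Finset U → Prop} {r : ℕ} {N : Finset U} (h : CxCompact r N X) (v : U) :
    CxCompact r (N.erase v) X := by
  intro Q hQ hP
  exact h Q (hQ.trans (Finset.erase_subset v N)) hP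

lemma cxCompact_link {X : Finset U → Prop} {r : ℕ} {N : Finset U} (hd : CxDown X)
    (h : CxCompact r N X) (v : U) (hv : v ∈ N) :
    CxCompact r (N.erase v) (fun Q => X (insert v Q)) := by
  intro Q hQ hP
  apply h (insert v Q)
  · apply Finset.insert_subset hv (hQ.trans (Finset.erase_subset v N))
  · intro P hPQ hcard
    have h1 : P.erase v ⊆ Q := by
      intro x hx
      have hx' := Finset.mem_erase.mp hx
      rcases Finset.mem_insert.mp (hPQ hx'.2) with h | h
      · exact absurd h hx'.1
      · exact h
    have h2 : (P.erase v).card ≤ r + 1 :=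
      (Finset.card_le_card (Finset.erase_subset v P)).trans hcard
    have h3 := hP (P.erase v) h1 h2
    apply hd _ _ _ h3
    intro x hx
    by_cases hxv : x = v
    · simp [hxv]
    · exact Finset.mem_insert_of_mem (Finset.mem_erase.mpr ⟨hxv, hx⟩)

/-- Main estimate: if every minimal non-face has size at most `r + 1`, `z = c + 1` and
`z ^ (r + 1) ≤ 2 * c ^ (r + 1)`, then the weighted sum is at most `c ^ |N|` in absolute value. -/
theorem abs_cxSum_le (z c : ℝ) (hc : 1 ≤ c) (hz : z = c + 1) (r : ℕ)
    (hr : z ^ (r + 1) ≤ 2 * c ^ (r + 1)) :
    ∀ (n : ℕ) (N : Finset U) (X : Finset U → Prop), N.card = n → CxDown X → CxCompact r N X →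
      |cxSum z N X| ≤ c ^ n := by
  classical
  have hc0 : 0 < c := by linarith
  have hz0 : 0 < z := by linarith
  have hcz : c ≤ z := by linarith
  intro n
  induction n using Nat.strong_induction_on with
  | _ n ih =>
    intro N X hN hd hcomp
    -- sub-lemma: a non-face P inside a ground set of size at most n
    have sub : ∀ (p : ℕ) (P M : Finset U) (Y : Finset U → Prop), P.card = p → P ⊆ M →
        M.card ≤ n → CxDown Y → CxCompact r M Y → ¬ Y P →
        |cxSum z M Y| ≤ c ^ (M \ P).card * (z ^ p - c ^ p) := by
      intro p
      induction p with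
      | zero =>
        intro P M Y hP _ _ hdY _ hYP
        have hP' : P = ∅ := Finset.card_eq_zero.mp hP
        subst hP'
        have h0 : cxSum z M Y = 0 := by
          unfold cxSum
          apply Finset.sum_eq_zero
          intro Q _
          rw [if_neg]
          intro hQ
          exact hYP (hdY _ _ (Finset.empty_subset Q) hQ)
        rw [h0]
        simp
      | succ p ihp =>
        intro P M Y hP hPM hM hdY hcY hYP
        obtain ⟨v, hv⟩ : P.Nonempty := by
          rw [← Finset.card_pos]; omega
        have hvM : v ∈ M := hPM hv
        rw [cxSum_erase z M Y v hvM]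
        have hMe : (M.erase v).card = M.card - 1 := Finset.card_erase_of_mem hvM
        have hMpos : 0 < M.card := Finset.card_pos.mpr ⟨v, hvM⟩
        have hPe : (P.erase v).card = p := by
          rw [Finset.card_erase_of_mem hv, hP]; rfl
        have hsd : (M.erase v) \ (P.erase v) = M \ P := by
          ext x
          simp only [Finset.mem_sdiff, Finset.mem_erase, not_and]
          constructor
          · rintro ⟨⟨h1, h2⟩, h3⟩
            exact ⟨h2, fun h => h3 h1 h⟩
          · rintro ⟨h1, h2⟩
            exact ⟨⟨fun h => h2 (h ▸ hv), h1⟩, fun _ => h2⟩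
        have hcardM : (M.erase v).card = (M \ P).card + p := by
          rw [Finset.card_sdiff_of_subset hPM, hP, hMe]
          have : P.card ≤ M.card := Finset.card_le_card hPM
          omega
        -- first term
        have h1 : |cxSum z (M.erase v) Y| ≤ c ^ ((M \ P).card + p) := by
          have := ih (M.erase v).card (by omega) (M.erase v) Y rfl hdY (cxCompact_erase hcY v)
          rwa [hcardM] at this
        -- second term
        have h2 : |cxSum z (M.erase v) (fun Q => Y (insert v Q))| ≤
            c ^ (M \ P).card * (z ^ p - c ^ p) := by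
          have := ihp (P.erase v) (M.erase v) (fun Q => Y (insert v Q)) hPe
            (Finset.erase_subset_erase v hPM) (by omega) (cxDown_link hdY v)
            (cxCompact_link hdY hcY v hvM) (by
              simp only [Finset.insert_erase hv]
              exact hYP)
          rwa [hsd] at this
        calc |cxSum z (M.erase v) Y - z * cxSum z (M.erase v) (fun Q => Y (insert v Q))|
            ≤ |cxSum z (M.erase v) Y| + |z * cxSum z (M.erase v) (fun Q => Y (insert v Q))| :=
              abs_sub _ _
          _ ≤ c ^ ((M \ P).card + p) + z * (c ^ (M \ P).card * (z ^ p - c ^ p)) := by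
              rw [abs_mul, abs_of_pos hz0]
              gcongr
          _ = c ^ (M \ P).card * (z ^ (p + 1) - c ^ (p + 1)) := by
              rw [hz]; ring
    -- now the main claim
    rcases Nat.eq_zero_or_pos n with hn0 | hnpos
    · subst hn0
      have hN' : N = ∅ := Finset.card_eq_zero.mp hN
      subst hN'
      unfold cxSum
      simp only [Finset.powerset_empty, Finset.sum_singleton, Finset.card_empty, pow_zero]
      split_ifs <;> simp
    · obtain ⟨v, hv⟩ : N.Nonempty := by
        rw [← Finset.card_pos]; omega
      by_cases hcone : ∀ Q : Finset U, Q ⊆ N.erase v → X Q → X (insert v Q)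
      · -- cone point
        have heq : cxSum z (N.erase v) (fun Q => X (insert v Q)) = cxSum z (N.erase v) X := by
          unfold cxSum
          apply Finset.sum_congr rfl
          intro Q hQ
          have hQ' := Finset.mem_powerset.mp hQ
          by_cases hX : X Q
          · simp [hX, hcone Q hQ' hX]
          · have : ¬ X (insert v Q) := fun h => hX (hd _ _ (Finset.subset_insert v Q) h)
            simp [hX, this]
        rw [cxSum_erase z N X v hv, heq]
        have hcard : (N.erase v).card = n - 1 := by
          rw [Finset.card_erase_of_mem hv, hN]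
        have h1 := ih (n - 1) (by omega) (N.erase v) X hcard hd (cxCompact_erase hcomp v)
        have : cxSum z (N.erase v) X - z * cxSum z (N.erase v) X =
            -(c * cxSum z (N.erase v) X) := by rw [hz]; ring
        rw [this, abs_neg, abs_mul, abs_of_pos hc0]
        calc c * |cxSum z (N.erase v) X| ≤ c * c ^ (n - 1) := by gcongr
          _ = c ^ n := by
            rw [← pow_succ']
            congr 1
            omega
      · -- there is a non-face of size at most r + 1
        push Not at hcone
        obtain ⟨Q, hQ, hXQ, hXv⟩ := hcone
        have hsub : insert v Q ⊆ N :=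
          Finset.insert_subset hv (hQ.trans (Finset.erase_subset v N))
        have : ∃ P : Finset U, P ⊆ insert v Q ∧ P.card ≤ r + 1 ∧ ¬ X P := by
          by_contra hcon
          push Not at hcon
          exact hXv (hcomp _ hsub hcon)
        obtain ⟨P, hP, hPc, hXP⟩ := this
        have h1 := sub P.card P N X rfl (hP.trans hsub) (le_of_eq hN) hd hcomp hXP
        have hPN : P.card ≤ N.card := Finset.card_le_card (hP.trans hsub)
        have hcardN : n = (N \ P).card + P.card := by
          rw [Finset.card_sdiff_of_subset (hP.trans hsub)]
          omega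
        have hzc : z ^ P.card ≤ 2 * c ^ P.card := by
          -- (z/c)^p ≤ (z/c)^(r+1) ≤ 2
          have hq : 1 ≤ z / c := by
            rw [le_div_iff₀ hc0]; linarith
          have h3 : (z / c) ^ P.card ≤ (z / c) ^ (r + 1) := pow_le_pow_right₀ hq hPc
          have h4 : (z / c) ^ (r + 1) ≤ 2 := by
            rw [div_pow, div_le_iff₀ (pow_pos hc0 _)]
            exact hr
          have h5 : (z / c) ^ P.card ≤ 2 := h3.trans h4
          rw [div_pow, div_le_iff₀ (pow_pos hc0 _)] at h5
          exact h5
        calc |cxSum z N X| ≤ c ^ (N \ P).card * (z ^ P.card - c ^ P.card) := h1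
          _ ≤ c ^ (N \ P).card * c ^ P.card := by
              gcongr
              linarith
          _ = c ^ n := by
              rw [← pow_add, ← hcardN]

end Pool.Agent.Lib.Recon
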