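import Mathlib
import Pool.Agent.Lib.Recon.Complex

/-!
Counting partial isomorphisms over a fixed vertex set, and a Kelly-type lemma for them.
-/

set_option autoImplicit false

namespace Pool.Agent.Lib.Recon

open Finset

section defs

variable {V U : Type*} [Fintype V] [Fintype U] [DecidableEq V] [DecidableEq U]

/-- `γ` is an induced embedding of `G[A]` in `K`. -/
def IsEmb (G : SimpleGraph V) (A : Finset V) (K : SimpleGraph U) (γ : A → U) : Prop :=
  Function.Injective γ ∧ ∀ a b : A, G.Adj a b ↔ K.Adj (γ a) (γ b)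

/-- The range of `γ` as a finset. -/
def rng (A : Finset V) (γ : A → U) : Finset U := Finset.univ.image γ

/-- `K[γ(A) ∪ Q]` embeds in `G` by a map extending the inverse of `γ`. -/
def Ext (G : SimpleGraph V) (A : Finset V) (K : SimpleGraph U) (γ : A → U) (Q : Finset U) : Prop :=
  ∃ ψ : U → V, (∀ w ∈ Q, ψ w ∉ A ∧ ∀ a : A, G.Adj a (ψ w) ↔ K.Adj (γ a) w) ∧
    (∀ w ∈ Q, ∀ w' ∈ Q, ψ w = ψ w' → w = w') ∧
    (∀ w ∈ Q, ∀ w' ∈ Q, G.Adj (ψ w) (ψ w') ↔ K.Adj w w')

open Classical in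
/-- The pairs `(γ, Q)`. -/
noncomputable def Prs (G : SimpleGraph V) (A : Finset V) (K : SimpleGraph U) :
    Finset ((A → U) × Finset U) :=
  Finset.univ.filter (fun p => IsEmb G A K p.1 ∧ Disjoint (rng A p.1) p.2 ∧ Ext G A K p.1 p.2)

open Classical in
/-- The pairs `(γ, Q)` with `|Q| = j`. -/
noncomputable def PrsJ (G : SimpleGraph V) (A : Finset V) (K : SimpleGraph U) (j : ℕ) :
    Finset ((A → U) × Finset U) :=
  (Prs G A K).filter (fun p => p.2.card = j)

lemma mem_rng {A : Finset V} {γ : A → U} {u : U} : u ∈ rng A γ ↔ ∃ a : A, γ a = u := by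
  simp [rng]

lemma card_rng {A : Finset V} {γ : A → U} (h : Function.Injective γ) :
    (rng A γ).card = A.card := by
  unfold rng
  rw [Finset.card_image_of_injective _ h]
  simp

lemma ext_down (G : SimpleGraph V) (A : Finset V) (K : SimpleGraph U) (γ : A → U) :
    CxDown (Ext G A K γ) := by
  intro P Q hPQ hQ
  obtain ⟨ψ, h1, h2, h3⟩ := hQ
  exact ⟨ψ, fun w hw => h1 w (hPQ hw), fun w hw w' hw' => h2 w (hPQ hw) w' (hPQ hw'),
    fun w hw w' hw' => h3 w (hPQ hw) w' (hPQ hw')⟩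

end defs

section transport

variable {V U U' : Type*} [Fintype V] [Fintype U] [Fintype U'] [DecidableEq V] [DecidableEq U]
  [DecidableEq U']

/-- Transport of a pair avoiding `v` along a bijection preserving adjacency off `v`. -/
lemma transport_mem (G : SimpleGraph V) (A : Finset V) (K : SimpleGraph U) (K' : SimpleGraph U')
    (j : ℕ) (σ : U ≃ U') (v : U)
    (hσ : ∀ x y, x ≠ v → y ≠ v → (K.Adj x y ↔ K'.Adj (σ x) (σ y)))
    (p : (A → U) × Finset U) (hp : p ∈ PrsJ G A K j) (h1 : v ∉ rng A p.1) (h2 : v ∉ p.2) :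
    ((σ ∘ p.1, p.2.map σ.toEmbedding) : (A → U') × Finset U') ∈ PrsJ G A K' j := by
  classical
  obtain ⟨γ, Q⟩ := p
  simp only [PrsJ, Prs, Finset.mem_filter, Finset.mem_univ, true_and] at hp ⊢
  obtain ⟨⟨⟨hinj, hadj⟩, hdisj, ψ, hψ1, hψ2, hψ3⟩, hcard⟩ := hp
  simp only at hinj hadj hdisj hψ1 hψ2 hψ3 hcard h1 h2
  have hγv : ∀ a : A, γ a ≠ v := fun a h => h1 (mem_rng.mpr ⟨a, h⟩)
  have hQv : ∀ w ∈ Q, w ≠ v := fun w hw h => h2 (h ▸ hw)
  refine ⟨⟨⟨σ.injective.comp hinj, ?_⟩, ?_, ?_⟩, ?_⟩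
  · intro a b
    rw [hadj a b, hσ _ _ (hγv a) (hγv b)]
    rfl
  · rw [Finset.disjoint_left] at hdisj ⊢
    intro x hx hxQ
    obtain ⟨a, rfl⟩ := mem_rng.mp hx
    rw [Finset.mem_map] at hxQ
    obtain ⟨y, hy, hyx⟩ := hxQ
    have : y = γ a := σ.injective hyx
    subst this
    exact hdisj (mem_rng.mpr ⟨a, rfl⟩) hy
  · refine ⟨ψ ∘ σ.symm, ?_, ?_, ?_⟩
    · intro w hw
      rw [Finset.mem_map] at hw
      obtain ⟨y, hy, rfl⟩ := hw
      simp only [Function.comp_apply, Equiv.coe_toEmbedding, Equiv.symm_apply_apply]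
      refine ⟨(hψ1 y hy).1, fun a => ?_⟩
      rw [(hψ1 y hy).2 a, hσ _ _ (hγv a) (hQv y hy)]
    · intro w hw w' hw' h
      rw [Finset.mem_map] at hw hw'
      obtain ⟨y, hy, rfl⟩ := hw
      obtain ⟨y', hy', rfl⟩ := hw'
      simp only [Function.comp_apply, Equiv.coe_toEmbedding, Equiv.symm_apply_apply] at h
      rw [hψ2 y hy y' hy' h]
    · intro w hw w' hw'
      rw [Finset.mem_map] at hw hw'
      obtain ⟨y, hy, rfl⟩ := hw
      obtain ⟨y', hy', rfl⟩ := hw'
      simp only [Function.comp_apply, Equiv.coe_toEmbedding, Equiv.symm_apply_apply]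
      rw [hψ3 y hy y' hy', hσ _ _ (hQv y hy) (hQv y' hy')]
  · rw [Finset.card_map, hcard]

open Classical in
lemma card_avoid_le (G : SimpleGraph V) (A : Finset V) (K : SimpleGraph U) (K' : SimpleGraph U')
    (j : ℕ) (σ : U ≃ U') (v : U)
    (hσ : ∀ x y, x ≠ v → y ≠ v → (K.Adj x y ↔ K'.Adj (σ x) (σ y))) :
    ((PrsJ G A K j).filter (fun p => v ∉ rng A p.1 ∧ v ∉ p.2)).card ≤
      ((PrsJ G A K' j).filter (fun p => σ v ∉ rng A p.1 ∧ σ v ∉ p.2)).card := by
  apply Finset.card_le_card_of_injOn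
    (fun p => ((σ ∘ p.1, p.2.map σ.toEmbedding) : (A → U') × Finset U'))
  · intro p hp
    simp only [Finset.coe_filter, Set.mem_setOf_eq] at hp ⊢
    refine ⟨transport_mem G A K K' j σ v hσ p hp.1 hp.2.1 hp.2.2, ?_, ?_⟩
    · intro h
      obtain ⟨a, ha⟩ := mem_rng.mp h
      exact hp.2.1 (mem_rng.mpr ⟨a, σ.injective ha⟩)
    · intro h
      rw [Finset.mem_map] at h
      obtain ⟨y, hy, hyx⟩ := h
      have : y = v := σ.injective hyx
      exact hp.2.2 (this ▸ hy)
  · intro p _ q _ h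
    simp only [Prod.mk.injEq] at h
    obtain ⟨h1, h2⟩ := h
    ext1
    · exact σ.injective.comp_left h1
    · exact Finset.map_injective _ h2

/-- `σ` certifies that the cards `K - v` and `K' - σ v` are isomorphic. -/
def CardIso (K : SimpleGraph U) (K' : SimpleGraph U') (v : U) (v' : U') : Prop :=
  ∃ σ : U ≃ U', σ v = v' ∧ ∀ x y, x ≠ v → y ≠ v → (K.Adj x y ↔ K'.Adj (σ x) (σ y))

lemma CardIso.symm {K : SimpleGraph U} {K' : SimpleGraph U'} {v : U} {v' : U'}
    (h : CardIso K K' v v') : CardIso K' K v' v := by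
  obtain ⟨σ, h1, h2⟩ := h
  refine ⟨σ.symm, by rw [← h1]; simp, ?_⟩
  intro x y hx hy
  have hx' : σ.symm x ≠ v := fun h => hx (by rw [← h1, ← h]; simp)
  have hy' : σ.symm y ≠ v := fun h => hy (by rw [← h1, ← h]; simp)
  rw [h2 _ _ hx' hy']
  simp

open Classical in
lemma card_avoid_eq (G : SimpleGraph V) (A : Finset V) (K : SimpleGraph U) (K' : SimpleGraph U')
    (j : ℕ) (v : U) (v' : U') (h : CardIso K K' v v') :
    ((PrsJ G A K j).filter (fun p => v ∉ rng A p.1 ∧ v ∉ p.2)).card =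
      ((PrsJ G A K' j).filter (fun p => v' ∉ rng A p.1 ∧ v' ∉ p.2)).card := by
  apply le_antisymm
  · obtain ⟨σ, h1, h2⟩ := h
    have := card_avoid_le G A K K' j σ v h2
    rwa [h1] at this
  · obtain ⟨σ, h1, h2⟩ := h.symm
    have := card_avoid_le G A K' K j σ v' h2
    rwa [h1] at this

open Classical in
lemma sum_card_avoid (G : SimpleGraph V) (A : Finset V) (K : SimpleGraph U) (j : ℕ) :
    ∑ v : U, ((PrsJ G A K j).filter (fun p => v ∉ rng A p.1 ∧ v ∉ p.2)).card =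
      (PrsJ G A K j).card * (Fintype.card U - (A.card + j)) := by
  have h1 : ∀ v : U, ((PrsJ G A K j).filter (fun p => v ∉ rng A p.1 ∧ v ∉ p.2)).card =
      ∑ p ∈ PrsJ G A K j, if (v ∉ rng A p.1 ∧ v ∉ p.2) then 1 else 0 := by
    intro v
    rw [Finset.card_filter]
  simp_rw [h1]
  rw [Finset.sum_comm]
  rw [Finset.card_eq_sum_ones, Finset.sum_mul]
  apply Finset.sum_congr rfl
  intro p hp
  simp only [PrsJ, Prs, Finset.mem_filter, Finset.mem_univ, true_and] at hp
  obtain ⟨⟨⟨hinj, _⟩, hdisj, _⟩, hcard⟩ := hp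
  rw [one_mul, ← Finset.card_filter]
  have : (Finset.univ.filter (fun v => v ∉ rng A p.1 ∧ v ∉ p.2)) = (rng A p.1 ∪ p.2)ᶜ := by
    ext x
    simp
  rw [this, Finset.card_compl, Finset.card_union_of_disjoint hdisj, card_rng hinj, hcard]

end transport

section kelly

variable {V W : Type*} [Fintype V] [Fintype W] [DecidableEq V] [DecidableEq W]

/-- Kelly-type lemma. -/
theorem card_prsJ_eq (G : SimpleGraph V) (H : SimpleGraph W) (f : V ≃ W)
    (hyp : ∀ v, CardIso G H v (f v)) (A : Finset V) (j : ℕ) (hj : A.card + j < Fintype.card V) :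
    (PrsJ G A G j).card = (PrsJ G A H j).card := by
  classical
  have hcard : Fintype.card V = Fintype.card W := Fintype.card_congr f
  have h1 := sum_card_avoid G A G j
  have h2 := sum_card_avoid G A H j
  have h3 : ∑ v : V, ((PrsJ G A G j).filter (fun p => v ∉ rng A p.1 ∧ v ∉ p.2)).card =
      ∑ w : W, ((PrsJ G A H j).filter (fun p => w ∉ rng A p.1 ∧ w ∉ p.2)).card := by
    rw [← Equiv.sum_comp f]
    apply Finset.sum_congr rfl
    intro v _
    exact card_avoid_eq G A G H j v (f v) (hyp v)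
  rw [h1, h2, ← hcard] at h3
  exact Nat.eq_of_mul_eq_mul_right (by omega) h3

end kelly

end Pool.Agent.Lib.Recon
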