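import Mathlib
import Pool.Agent.Lib.Recon.Master

/-!
Translation between truncated clique lattices and graphs.
-/

set_option autoImplicit false
set_option linter.unusedSectionVars false

namespace Pool.Agent.Lib.Recon

open Finset

section

variable {V W : Type*} [Fintype V] [Fintype W]

/-- An order isomorphism between the cards of the truncated clique lattices yields an
isomorphism of the graph cards. -/
theorem cardIso_of_orderIso (G : SimpleGraph V) (H : SimpleGraph W) (f : V ≃ W) (v : V)
    (e : {s : Finset V // s.Nonempty ∧ G.IsClique (s : Set V) ∧ v ∉ s} ≃o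
      {t : Finset W // t.Nonempty ∧ H.IsClique (t : Set W) ∧ f v ∉ t}) :
    CardIso G H v (f v) := by
  classical
  -- singletons
  let P := {s : Finset V // s.Nonempty ∧ G.IsClique (s : Set V) ∧ v ∉ s}
  let P' := {t : Finset W // t.Nonempty ∧ H.IsClique (t : Set W) ∧ f v ∉ t}
  have hs : ∀ x : V, x ≠ v → ({x} : Finset V).Nonempty ∧
      G.IsClique (({x} : Finset V) : Set V) ∧ v ∉ ({x} : Finset V) := by
    intro x hx
    refine ⟨Finset.singleton_nonempty x, by simp, ?_⟩
    simpa using Ne.symm hx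
  have hs' : ∀ y : W, y ≠ f v → ({y} : Finset W).Nonempty ∧
      H.IsClique (({y} : Finset W) : Set W) ∧ f v ∉ ({y} : Finset W) := by
    intro y hy
    refine ⟨Finset.singleton_nonempty y, by simp, ?_⟩
    simpa using Ne.symm hy
  -- each singleton is mapped to a singleton
  have key : ∀ (x : V) (hx : x ≠ v), ∃ (y : W) (hy : y ≠ f v),
      e ⟨{x}, hs x hx⟩ = ⟨{y}, hs' y hy⟩ := by
    intro x hx
    obtain ⟨y, hy⟩ := (e ⟨{x}, hs x hx⟩).2.1
    have hyv : y ≠ f v := fun h => (e ⟨{x}, hs x hx⟩).2.2.2 (h ▸ hy)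
    refine ⟨y, hyv, ?_⟩
    have hle : (⟨{y}, hs' y hyv⟩ : P') ≤ e ⟨{x}, hs x hx⟩ := by
      change ({y} : Finset W) ⊆ (e ⟨{x}, hs x hx⟩).1
      exact Finset.singleton_subset_iff.mpr hy
    have hle2 : e.symm ⟨{y}, hs' y hyv⟩ ≤ ⟨{x}, hs x hx⟩ := by
      rw [← e.le_iff_le, e.apply_symm_apply]
      exact hle
    have heq : e.symm ⟨{y}, hs' y hyv⟩ = ⟨{x}, hs x hx⟩ := by
      apply Subtype.ext
      have h1 : (e.symm ⟨{y}, hs' y hyv⟩).1 ⊆ {x} := hle2
      rcases Finset.subset_singleton_iff.mp h1 with h | h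
      · exact absurd h (e.symm ⟨{y}, hs' y hyv⟩).2.1.ne_empty
      · exact h
    rw [← heq, e.apply_symm_apply]
  choose g hg1 hg2 using key
  let φ : V → W := fun x => if hx : x = v then f v else g x hx
  have hφv : φ v = f v := by simp [φ]
  have hφ : ∀ (x : V) (hx : x ≠ v), φ x = g x hx := fun x hx => dif_neg hx
  have hinj : Function.Injective φ := by
    intro x y hxy
    by_cases hx : x = v
    · by_cases hy : y = v
      · rw [hx, hy]
      · rw [hx, hφv, hφ y hy] at hxy
        exact absurd hxy.symm (hg1 y hy)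
    · by_cases hy : y = v
      · rw [hy, hφv, hφ x hx] at hxy
        exact absurd hxy (hg1 x hx)
      · rw [hφ x hx, hφ y hy] at hxy
        have h1 : e ⟨{x}, hs x hx⟩ = e ⟨{y}, hs y hy⟩ := by
          rw [hg2 x hx, hg2 y hy]
          apply Subtype.ext
          simp [hxy]
        have h2 := e.injective h1
        have h3 : ({x} : Finset V) = {y} := congrArg Subtype.val h2
        exact Finset.singleton_injective h3
  have hcard : Fintype.card V = Fintype.card W := Fintype.card_congr f
  have hbij : Function.Bijective φ :=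
    (Fintype.bijective_iff_injective_and_card φ).mpr ⟨hinj, hcard⟩
  refine ⟨Equiv.ofBijective φ hbij, hφv, ?_⟩
  intro x y hx hy
  simp only [Equiv.ofBijective_apply]
  rw [hφ x hx, hφ y hy]
  by_cases hxy : x = y
  · subst hxy
    simp
  · have hgne : g x hx ≠ g y hy := by
      intro h
      apply hxy
      apply hinj
      rw [hφ x hx, hφ y hy, h]
    constructor
    · intro hadj
      have hc : ({x, y} : Finset V).Nonempty ∧
          G.IsClique (({x, y} : Finset V) : Set V) ∧ v ∉ ({x, y} : Finset V) := by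
        refine ⟨⟨x, by simp⟩, ?_, ?_⟩
        · rw [Finset.coe_pair, SimpleGraph.isClique_pair]
          exact fun _ => hadj
        · simp only [Finset.mem_insert, Finset.mem_singleton, not_or]
          exact ⟨Ne.symm hx, Ne.symm hy⟩
      have hle1 : (⟨{x}, hs x hx⟩ : P) ≤ ⟨{x, y}, hc⟩ := by
        change ({x} : Finset V) ⊆ {x, y}
        simp
      have hle2 : (⟨{y}, hs y hy⟩ : P) ≤ ⟨{x, y}, hc⟩ := by
        change ({y} : Finset V) ⊆ {x, y}
        simp
      have h1 := e.monotone hle1
      have h2 := e.monotone hle2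
      rw [hg2 x hx] at h1
      rw [hg2 y hy] at h2
      have h1' : ({g x hx} : Finset W) ⊆ (e ⟨{x, y}, hc⟩).1 := h1
      have h2' : ({g y hy} : Finset W) ⊆ (e ⟨{x, y}, hc⟩).1 := h2
      exact (e ⟨{x, y}, hc⟩).2.2.1 (Finset.singleton_subset_iff.mp h1')
        (Finset.singleton_subset_iff.mp h2') hgne
    · intro hadj
      have hc : ({g x hx, g y hy} : Finset W).Nonempty ∧
          H.IsClique (({g x hx, g y hy} : Finset W) : Set W) ∧
            f v ∉ ({g x hx, g y hy} : Finset W) := by
        refine ⟨⟨g x hx, by simp⟩, ?_, ?_⟩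
        · rw [Finset.coe_pair, SimpleGraph.isClique_pair]
          exact fun _ => hadj
        · simp only [Finset.mem_insert, Finset.mem_singleton, not_or]
          exact ⟨Ne.symm (hg1 x hx), Ne.symm (hg1 y hy)⟩
      have hle1 : (⟨{g x hx}, hs' _ (hg1 x hx)⟩ : P') ≤ ⟨{g x hx, g y hy}, hc⟩ := by
        change ({g x hx} : Finset W) ⊆ {g x hx, g y hy}
        simp
      have hle2 : (⟨{g y hy}, hs' _ (hg1 y hy)⟩ : P') ≤ ⟨{g x hx, g y hy}, hc⟩ := by
        change ({g y hy} : Finset W) ⊆ {g x hx, g y hy}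
        simp
      rw [← hg2] at hle1 hle2
      have h1 : (⟨{x}, hs x hx⟩ : P) ≤ e.symm ⟨{g x hx, g y hy}, hc⟩ := by
        rw [← e.le_iff_le, e.apply_symm_apply]
        exact hle1
      have h2 : (⟨{y}, hs y hy⟩ : P) ≤ e.symm ⟨{g x hx, g y hy}, hc⟩ := by
        rw [← e.le_iff_le, e.apply_symm_apply]
        exact hle2
      have h1' : ({x} : Finset V) ⊆ (e.symm ⟨{g x hx, g y hy}, hc⟩).1 := h1
      have h2' : ({y} : Finset V) ⊆ (e.symm ⟨{g x hx, g y hy}, hc⟩).1 := h2
      exact (e.symm ⟨{g x hx, g y hy}, hc⟩).2.2.1 (Finset.singleton_subset_iff.mp h1')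
        (Finset.singleton_subset_iff.mp h2') hxy

/-- An isomorphism of graphs yields an order isomorphism of truncated clique lattices. -/
theorem orderIso_of_iso (G : SimpleGraph V) (H : SimpleGraph W)
    (h : ∃ α : V ≃ W, ∀ x y, G.Adj x y ↔ H.Adj (α x) (α y)) :
    Nonempty ({s : Finset V // s.Nonempty ∧ G.IsClique (s : Set V)} ≃o
      {t : Finset W // t.Nonempty ∧ H.IsClique (t : Set W)}) := by
  classical
  obtain ⟨α, hα⟩ := h
  have h1 : ∀ s : Finset V, G.IsClique (s : Set V) →
      H.IsClique ((s.map α.toEmbedding : Finset W) : Set W) := by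
    intro s hs a ha b hb hab
    rw [Finset.mem_coe, Finset.mem_map] at ha hb
    obtain ⟨x, hx, rfl⟩ := ha
    obtain ⟨y, hy, rfl⟩ := hb
    exact (hα x y).mp (hs hx hy (fun h => hab (by rw [h])))
  have h2 : ∀ t : Finset W, H.IsClique (t : Set W) →
      G.IsClique ((t.map α.symm.toEmbedding : Finset V) : Set V) := by
    intro t ht a ha b hb hab
    rw [Finset.mem_coe, Finset.mem_map] at ha hb
    obtain ⟨x, hx, rfl⟩ := ha
    obtain ⟨y, hy, rfl⟩ := hb
    rw [hα]
    simp only [Equiv.coe_toEmbedding, Equiv.apply_symm_apply]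
    exact ht hx hy (fun h => hab (by rw [h]))
  refine ⟨{
    toFun := fun s => ⟨s.1.map α.toEmbedding, by simpa using s.2.1, h1 s.1 s.2.2⟩
    invFun := fun t => ⟨t.1.map α.symm.toEmbedding, by simpa using t.2.1, h2 t.1 t.2.2⟩
    left_inv := ?_
    right_inv := ?_
    map_rel_iff' := ?_ }⟩
  · intro s
    apply Subtype.ext
    simp only [Finset.map_map]
    ext x
    simp
  · intro t
    apply Subtype.ext
    simp only [Finset.map_map]
    ext x
    simp
  · intro s t
    change s.1.map α.toEmbedding ⊆ t.1.map α.toEmbedding ↔ s.1 ⊆ t.1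
    exact Finset.map_subset_map

end

end Pool.Agent.Lib.Recon
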