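import Mathlib
import Pool.Agent.Lib.Recon.Complex
import Pool.Agent.Lib.Recon.Master

/-!
The reconstruction theorem for graphs with a small set distinguishing all non-twins.
-/

set_option autoImplicit false
set_option linter.unusedSectionVars false

namespace Pool.Agent.Lib.Recon

open Finset

section totals

variable {V U : Type*} [Fintype V] [Fintype U] [DecidableEq V] [DecidableEq U]

/-- total weighted number of pairs -/
noncomputable def Tot (z : ℝ) (G : SimpleGraph V) (A : Finset V) (K : SimpleGraph U) : ℝ :=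
  ∑ p ∈ Prs G A K, (-z) ^ p.2.card

open Classical in
/-- The induced embeddings of `G[A]` in `K`. -/
noncomputable def Embs (G : SimpleGraph V) (A : Finset V) (K : SimpleGraph U) : Finset (A → U) :=
  Finset.univ.filter (fun γ => IsEmb G A K γ)

lemma tot_eq_sum_cx (z : ℝ) (G : SimpleGraph V) (A : Finset V) (K : SimpleGraph U) :
    Tot z G A K = ∑ γ ∈ Embs G A K, cxSum z ((rng A γ)ᶜ) (Ext G A K γ) := by
  classical
  unfold Tot Prs Embs
  rw [Finset.sum_filter, Fintype.sum_prod_type, Finset.sum_filter]
  apply Finset.sum_congr rfl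
  intro γ _
  by_cases h : IsEmb G A K γ
  · simp only [h, true_and, if_true]
    unfold cxSum
    have h2 : ((rng A γ)ᶜ).powerset =
        (Finset.univ : Finset (Finset U)).filter (fun Q => Disjoint (rng A γ) Q) := by
      ext Q
      simp only [Finset.mem_powerset, Finset.mem_filter, Finset.mem_univ, true_and]
      rw [Finset.disjoint_left]
      constructor
      · intro h x hx hxQ
        have := h hxQ
        rw [Finset.mem_compl] at this
        exact this hx
      · intro h x hx
        rw [Finset.mem_compl]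
        exact fun hx' => h hx' hx
    rw [h2, Finset.sum_filter]
    apply Finset.sum_congr rfl
    intro Q _
    by_cases hd : Disjoint (rng A γ) Q
    · simp [hd]
    · simp [hd]
  · simp [h]

lemma tot_eq_sum_j (z : ℝ) (G : SimpleGraph V) (A : Finset V) (K : SimpleGraph U)
    (hcard : Fintype.card V = Fintype.card U) :
    Tot z G A K = ∑ j ∈ Finset.range (Fintype.card V - A.card + 1),
      (-z) ^ j * ((PrsJ G A K j).card : ℝ) := by
  classical
  unfold Tot
  rw [← Finset.sum_fiberwise_of_maps_to (s := Prs G A K)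
    (t := Finset.range (Fintype.card V - A.card + 1)) (g := fun p => p.2.card)]
  · apply Finset.sum_congr rfl
    intro j _
    unfold PrsJ
    rw [Finset.sum_congr rfl (g := fun _ => (-z) ^ j)]
    · rw [Finset.sum_const, nsmul_eq_mul, mul_comm]
    · intro p hp
      rw [(Finset.mem_filter.mp hp).2]
  · intro p hp
    simp only [Prs, Finset.mem_filter, Finset.mem_univ, true_and] at hp
    rw [Finset.mem_range]
    obtain ⟨⟨hinj, _⟩, hdisj, _⟩ := hp
    have h1 : (rng A p.1 ∪ p.2).card ≤ Fintype.card U := Finset.card_le_univ _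
    rw [Finset.card_union_of_disjoint hdisj, card_rng hinj] at h1
    omega

end totals

section main

variable {V W : Type*} [Fintype V] [Fintype W] [DecidableEq V] [DecidableEq W]

/-- A full pair gives an isomorphism. -/
lemma iso_of_full {U : Type*} [Fintype U] [DecidableEq U]
    (G : SimpleGraph V) (A : Finset V) (K : SimpleGraph U)
    (hcard : Fintype.card V = Fintype.card U) (p : (A → U) × Finset U)
    (hp : p ∈ PrsJ G A K (Fintype.card V - A.card)) :
    ∃ α : V ≃ U, (∀ a : A, α a = p.1 a) ∧ ∀ x y, G.Adj x y ↔ K.Adj (α x) (α y) := by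
  classical
  obtain ⟨γ, Q⟩ := p
  simp only [PrsJ, Prs, Finset.mem_filter, Finset.mem_univ, true_and] at hp
  obtain ⟨⟨⟨hinj, hadj⟩, hdisj, ψ, hψ1, hψ2, hψ3⟩, hQcard⟩ := hp
  have hunion : rng A γ ∪ Q = Finset.univ := by
    apply Finset.eq_univ_of_card
    rw [Finset.card_union_of_disjoint hdisj, card_rng hinj, hQcard, ← hcard]
    have : A.card ≤ Fintype.card V := Finset.card_le_univ A
    omega
  -- the inverse map
  let φ : U → V := fun w => if h : ∃ a : A, γ a = w then ((Classical.choose h : A) : V) else ψ w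
  have hφ1 : ∀ a : A, φ (γ a) = a := by
    intro a
    have h : ∃ b : A, γ b = γ a := ⟨a, rfl⟩
    have h2 : φ (γ a) = ((Classical.choose h : A) : V) := dif_pos h
    rw [h2]
    have := hinj (Classical.choose_spec h)
    rw [this]
  have hnr : ∀ w ∈ Q, ¬ ∃ a : A, γ a = w := by
    intro w hw ⟨a, ha⟩
    exact (Finset.disjoint_left.mp hdisj) (mem_rng.mpr ⟨a, ha⟩) hw
  have hφ2 : ∀ w ∈ Q, φ w = ψ w := fun w hw => dif_neg (hnr w hw)
  have hcov : ∀ w : U, (∃ a : A, γ a = w) ∨ w ∈ Q := by
    intro w
    have : w ∈ rng A γ ∪ Q := by rw [hunion]; exact Finset.mem_univ w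
    rcases Finset.mem_union.mp this with h | h
    · exact Or.inl (mem_rng.mp h)
    · exact Or.inr h
  have hφinj : Function.Injective φ := by
    intro x y hxy
    rcases hcov x with ⟨a, rfl⟩ | hx
    · rcases hcov y with ⟨b, rfl⟩ | hy
      · rw [hφ1, hφ1] at hxy
        rw [Subtype.ext hxy]
      · rw [hφ1, hφ2 y hy] at hxy
        exact absurd (hxy ▸ a.2) (hψ1 y hy).1
    · rcases hcov y with ⟨b, rfl⟩ | hy
      · rw [hφ1, hφ2 x hx] at hxy
        exact absurd (hxy ▸ b.2) (hψ1 x hx).1
      · rw [hφ2 x hx, hφ2 y hy] at hxy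
        exact hψ2 x hx y hy hxy
  have hφbij : Function.Bijective φ :=
    (Fintype.bijective_iff_injective_and_card φ).mpr ⟨hφinj, hcard.symm⟩
  have hφadj : ∀ x y, G.Adj (φ x) (φ y) ↔ K.Adj x y := by
    intro x y
    rcases hcov x with ⟨a, rfl⟩ | hx
    · rcases hcov y with ⟨b, rfl⟩ | hy
      · rw [hφ1, hφ1, hadj]
      · rw [hφ1, hφ2 y hy]
        exact (hψ1 y hy).2 a
    · rcases hcov y with ⟨b, rfl⟩ | hy
      · rw [hφ1, hφ2 x hx, G.adj_comm, K.adj_comm]
        exact (hψ1 x hx).2 b
      · rw [hφ2 x hx, hφ2 y hy]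
        exact hψ3 x hx y hy
  let e : U ≃ V := Equiv.ofBijective φ hφbij
  refine ⟨e.symm, ?_, ?_⟩
  · intro a
    rw [Equiv.symm_apply_eq]
    exact (hφ1 a).symm
  · intro x y
    have h1 := hφadj (e.symm x) (e.symm y)
    have h2 : φ (e.symm x) = x := e.apply_symm_apply x
    have h3 : φ (e.symm y) = y := e.apply_symm_apply y
    rw [h2, h3] at h1
    exact h1

/-- Restrictions of automorphisms give full pairs. -/
lemma full_of_aut (G : SimpleGraph V) (A : Finset V) (α : V ≃ V)
    (hα : ∀ x y, G.Adj x y ↔ G.Adj (α x) (α y)) :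
    ((fun a : A => α a, (rng A (fun a : A => α a))ᶜ) : (A → V) × Finset V) ∈
      PrsJ G A G (Fintype.card V - A.card) := by
  classical
  have hinj : Function.Injective (fun a : A => α a) := by
    intro a b h
    exact Subtype.ext (α.injective h)
  simp only [PrsJ, Prs, Finset.mem_filter, Finset.mem_univ, true_and]
  refine ⟨⟨⟨hinj, fun a b => hα a b⟩, disjoint_compl_right, ?_⟩, ?_⟩
  · refine ⟨α.symm, ?_, ?_, ?_⟩
    · intro w hw
      rw [Finset.mem_compl] at hw
      refine ⟨fun h => hw (mem_rng.mpr ⟨⟨α.symm w, h⟩, by simp⟩), fun a => ?_⟩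
      rw [hα]
      simp
    · intro w _ w' _ h
      exact α.symm.injective h
    · intro w _ w' _
      rw [hα]
      simp
  · rw [Finset.card_compl, card_rng hinj]

/-- Twin hypothesis: two vertices outside `A` with the same neighbours in `A` have the same
neighbours among all other vertices. -/
def TwinHyp (G : SimpleGraph V) (A : Finset V) : Prop :=
  ∀ u v, u ∉ A → v ∉ A → (∀ a ∈ A, G.Adj a u ↔ G.Adj a v) →
    ∀ w, w ≠ u → w ≠ v → (G.Adj w u ↔ G.Adj w v)

open Classical in
/-- The vertices outside `A` having the same neighbours in `A` as `u`. -/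
noncomputable def cls (G : SimpleGraph V) (A : Finset V) (u : V) : Finset V :=
  Finset.univ.filter (fun v => v ∉ A ∧ ∀ a ∈ A, G.Adj a u ↔ G.Adj a v)

lemma twin_transfer (G : SimpleGraph V) (A : Finset V) (hT : TwinHyp G A)
    {x x' y y' : V} (hx : x ∉ A) (hx' : x' ∉ A) (hy : y ∉ A) (hy' : y' ∉ A)
    (hxx : ∀ a ∈ A, G.Adj a x ↔ G.Adj a x') (hyy : ∀ a ∈ A, G.Adj a y ↔ G.Adj a y')
    (hne : x ≠ y) (hne' : x' ≠ y') : G.Adj x y ↔ G.Adj x' y' := by
  by_cases h : x' = y
  · subst h
    by_cases h2 : x = y'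
    · subst h2
      exact G.adj_comm _ _
    · rw [G.adj_comm x x']
      apply hT x y' hx hy' _ x' hne.symm hne'
      intro a ha
      rw [hxx a ha, hyy a ha]
  · have h1 : G.Adj x y ↔ G.Adj x' y := by
      rw [G.adj_comm x y, G.adj_comm x' y]
      exact hT x x' hx hx' hxx y hne.symm (Ne.symm h)
    rw [h1]
    exact hT y y' hy hy' hyy x' h hne'

lemma ext_compact {U : Type*} [Fintype U] [DecidableEq U]
    (G : SimpleGraph V) (A : Finset V) (K : SimpleGraph U) (γ : A → U) (s : ℕ) (hs : 1 ≤ s)
    (hT : TwinHyp G A) (hC : ∀ u, u ∉ A → (cls G A u).card ≤ s) (N : Finset U) :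
    CxCompact s N (Ext G A K γ) := by
  classical
  -- induction on the size of Q
  have main : ∀ (n : ℕ) (Q : Finset U), Q.card = n →
      (∀ P : Finset U, P ⊆ Q → P.card ≤ s + 1 → Ext G A K γ P) → Ext G A K γ Q := by
    intro n
    induction n with
    | zero =>
      intro Q hQ hP
      exact hP Q (Finset.Subset.refl Q) (by omega)
    | succ n ih =>
      intro Q hQ hP
      by_cases hle : Q.card ≤ s + 1
      · exact hP Q (Finset.Subset.refl Q) hle
      obtain ⟨w, hw⟩ : Q.Nonempty := by
        rw [← Finset.card_pos]; omega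
      have hQe : (Q.erase w).card = n := by
        rw [Finset.card_erase_of_mem hw, hQ]; rfl
      obtain ⟨ψ, hψ1, hψ2, hψ3⟩ := ih (Q.erase w) hQe
        (fun P hPQ hc => hP P (hPQ.trans (Finset.erase_subset w Q)) hc)
      -- the singleton {w}
      obtain ⟨ψ0, hψ01, _, _⟩ := hP {w} (Finset.singleton_subset_iff.mpr hw) (by simp)
      obtain ⟨hb0A, hb0⟩ := hψ01 w (Finset.mem_singleton_self w)
      set b0 := ψ0 w with hb0def
      -- vertices of Q with the same trace as w
      let Qw : Finset U := Q.filter (fun w' => ∀ a : A, K.Adj (γ a) w' ↔ K.Adj (γ a) w)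
      have hQw : Qw.card ≤ (cls G A b0).card := by
        by_contra hcon
        push Not at hcon
        have hle2 : (cls G A b0).card + 1 ≤ Qw.card := hcon
        obtain ⟨P, hPQ, hPc⟩ := Finset.exists_subset_card_eq hle2
        have hPQ' : P ⊆ Q := hPQ.trans (Finset.filter_subset _ _)
        have hPs : P.card ≤ s + 1 := by
          rw [hPc]
          have := hC b0 hb0A
          omega
        obtain ⟨ψP, hP1, hP2, _⟩ := hP P hPQ' hPs
        have : P.card ≤ (cls G A b0).card := by
          apply Finset.card_le_card_of_injOn ψP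
          · intro x hx
            have hx' := Finset.mem_coe.mp hx
            obtain ⟨hx1, hx2⟩ := hP1 x hx'
            have hx3 := (Finset.mem_filter.mp (hPQ hx')).2
            simp only [cls, Finset.coe_filter, Finset.mem_univ, true_and, Set.mem_ofPred_eq]
            refine ⟨hx1, fun a ha => ?_⟩
            rw [hb0 ⟨a, ha⟩, ← hx3 ⟨a, ha⟩]
            exact (hx2 ⟨a, ha⟩).symm
          · intro x hx y hy hxy
            exact hP2 x hx y hy hxy
        omega
      -- a free vertex in the class
      have hex : ∃ b ∈ cls G A b0, b ∉ (Qw.erase w).image ψ := by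
        by_contra hcon
        push Not at hcon
        have h1 : (cls G A b0).card ≤ ((Qw.erase w).image ψ).card :=
          Finset.card_le_card hcon
        have h2 : ((Qw.erase w).image ψ).card ≤ (Qw.erase w).card := Finset.card_image_le
        have hwQw : w ∈ Qw := Finset.mem_filter.mpr ⟨hw, fun a => Iff.rfl⟩
        have h3 : (Qw.erase w).card = Qw.card - 1 := Finset.card_erase_of_mem hwQw
        have h4 : 0 < Qw.card := Finset.card_pos.mpr ⟨w, hwQw⟩
        omega
      obtain ⟨b, hb, hbfree⟩ := hex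
      simp only [cls, Finset.mem_filter, Finset.mem_univ, true_and] at hb
      obtain ⟨hbA, hbtr⟩ := hb
      have hbw : ∀ a : A, G.Adj a b ↔ K.Adj (γ a) w := by
        intro a
        rw [← hbtr a a.2, hb0 a]
      -- b differs from all the images
      have hbne : ∀ w' ∈ Q.erase w, ψ w' ≠ b := by
        intro w' hw' heq
        apply hbfree
        rw [Finset.mem_image]
        refine ⟨w', ?_, heq⟩
        rw [Finset.mem_erase] at hw' ⊢
        refine ⟨hw'.1, ?_⟩
        simp only [Qw, Finset.mem_filter]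
        refine ⟨hw'.2, fun a => ?_⟩
        rw [← hbw a, ← (hψ1 w' (Finset.mem_erase.mpr hw')).2 a, heq]
      have hbadj : ∀ w' ∈ Q.erase w, (G.Adj b (ψ w') ↔ K.Adj w w') := by
        intro w' hw'
        have hw'2 := Finset.mem_erase.mp hw'
        obtain ⟨ψ2, h21, h22, h23⟩ := hP {w, w'}
          (by
            intro x hx
            rcases Finset.mem_insert.mp hx with h | h
            · rw [h]; exact hw
            · rw [Finset.mem_singleton.mp h]; exact hw'2.2)
          ((Finset.card_le_two).trans (by omega))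
        have hm1 : w ∈ ({w, w'} : Finset U) := by simp
        have hm2 : w' ∈ ({w, w'} : Finset U) := by simp
        rw [← h23 w hm1 w' hm2]
        apply twin_transfer G A hT hbA (h21 w hm1).1 (hψ1 w' hw').1 (h21 w' hm2).1
        · intro a ha
          rw [hbw ⟨a, ha⟩, ← (h21 w hm1).2 ⟨a, ha⟩]
        · intro a ha
          rw [(hψ1 w' hw').2 ⟨a, ha⟩, ← (h21 w' hm2).2 ⟨a, ha⟩]
        · exact (hbne w' hw').symm
        · intro h
          exact hw'2.1 (h22 w hm1 w' hm2 h).symm
      refine ⟨fun x => if x = w then b else ψ x, ?_, ?_, ?_⟩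
      · intro x hx
        by_cases hxw : x = w
        · subst hxw
          simp only [if_true]
          exact ⟨hbA, hbw⟩
        · simp only [hxw, if_false]
          exact hψ1 x (Finset.mem_erase.mpr ⟨hxw, hx⟩)
      · intro x hx y hy hxy
        by_cases hxw : x = w
        · by_cases hyw : y = w
          · rw [hxw, hyw]
          · simp only [hxw, if_true, hyw, if_false] at hxy
            exact absurd hxy.symm (hbne y (Finset.mem_erase.mpr ⟨hyw, hy⟩))
        · by_cases hyw : y = w
          · simp only [hxw, if_false, hyw, if_true] at hxy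
            exact absurd hxy (hbne x (Finset.mem_erase.mpr ⟨hxw, hx⟩))
          · simp only [hxw, if_false, hyw] at hxy
            exact hψ2 x (Finset.mem_erase.mpr ⟨hxw, hx⟩) y (Finset.mem_erase.mpr ⟨hyw, hy⟩) hxy
      · intro x hx y hy
        by_cases hxw : x = w
        · by_cases hyw : y = w
          · subst hxw
            subst hyw
            simp
          · simp only [hxw, if_true, hyw, if_false]
            exact hbadj y (Finset.mem_erase.mpr ⟨hyw, hy⟩)
        · by_cases hyw : y = w
          · simp only [hxw, if_false, hyw, if_true]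
            rw [G.adj_comm, K.adj_comm]
            exact hbadj x (Finset.mem_erase.mpr ⟨hxw, hx⟩)
          · simp only [hxw, if_false, hyw]
            exact hψ3 x (Finset.mem_erase.mpr ⟨hxw, hx⟩) y (Finset.mem_erase.mpr ⟨hyw, hy⟩)
  intro Q _ hP
  exact main Q.card Q rfl hP

open Classical in
/-- The embeddings of `G[A]` in `G` that extend to automorphisms of `G`. -/
noncomputable def AutEmbs (G : SimpleGraph V) (A : Finset V) : Finset (A → V) :=
  Finset.univ.filter (fun γ => ∃ α : V ≃ V, (∀ x y, G.Adj x y ↔ G.Adj (α x) (α y)) ∧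
    ∀ a : A, γ a = α a)

lemma autEmbs_subset (G : SimpleGraph V) (A : Finset V) : AutEmbs G A ⊆ Embs G A G := by
  classical
  intro γ hγ
  simp only [AutEmbs, Finset.mem_filter, Finset.mem_univ, true_and] at hγ
  obtain ⟨α, hα, hγα⟩ := hγ
  simp only [Embs, Finset.mem_filter, Finset.mem_univ, true_and]
  refine ⟨?_, ?_⟩
  · intro a b h
    rw [hγα, hγα] at h
    exact Subtype.ext (α.injective h)
  · intro a b
    rw [hγα, hγα]
    exact hα _ _

lemma autEmbs_card_le (G : SimpleGraph V) (A : Finset V) :
    (AutEmbs G A).card ≤ (PrsJ G A G (Fintype.card V - A.card)).card := by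
  classical
  apply Finset.card_le_card_of_injOn (fun γ => ((γ, (rng A γ)ᶜ) : (A → V) × Finset V))
  · intro γ hγ
    have hγ' := Finset.mem_coe.mp hγ
    simp only [AutEmbs, Finset.mem_filter, Finset.mem_univ, true_and] at hγ'
    obtain ⟨α, hα, hγα⟩ := hγ'
    have : γ = fun a : A => α a := funext hγα
    rw [this]
    exact full_of_aut G A α hα
  · intro γ _ γ' _ h
    simp only [Prod.mk.injEq] at h
    exact h.1

lemma card_embs_eq_prs {U : Type*} [Fintype U] [DecidableEq U] (G : SimpleGraph V) (A : Finset V)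
    (K : SimpleGraph U) (hV : Nonempty V) : (Embs G A K).card = (PrsJ G A K 0).card := by
  classical
  apply le_antisymm
  · apply Finset.card_le_card_of_injOn (fun γ => ((γ, ∅) : (A → U) × Finset U))
    · intro γ hγ
      have hγ' := Finset.mem_coe.mp hγ
      simp only [Embs, Finset.mem_filter, Finset.mem_univ, true_and] at hγ'
      obtain ⟨v0⟩ := hV
      simp only [PrsJ, Prs, Finset.coe_filter, Finset.mem_filter, Finset.mem_univ, true_and,
        Set.mem_ofPred_eq, Finset.card_empty, and_true]
      refine ⟨hγ', Finset.disjoint_empty_right _, fun _ => v0, ?_, ?_, ?_⟩ <;>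
      · intro w hw
        exact absurd hw (Finset.notMem_empty w)
    · intro γ _ γ' _ h
      simp only [Prod.mk.injEq, and_true] at h
      exact h
  · apply Finset.card_le_card_of_injOn (fun p => p.1)
    · intro p hp
      have hp' := Finset.mem_coe.mp hp
      simp only [PrsJ, Prs, Finset.mem_filter, Finset.mem_univ, true_and] at hp'
      simp only [Embs, Finset.coe_filter, Finset.mem_univ, true_and, Set.mem_ofPred_eq]
      exact hp'.1.1
    · intro p hp q hq h
      have hp' := Finset.mem_coe.mp hp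
      have hq' := Finset.mem_coe.mp hq
      simp only [PrsJ, Finset.mem_filter] at hp' hq'
      ext1
      · exact h
      · rw [Finset.card_eq_zero.mp hp'.2, Finset.card_eq_zero.mp hq'.2]

lemma card_embs_eq (G : SimpleGraph V) (H : SimpleGraph W) (f : V ≃ W)
    (hyp : ∀ v, CardIso G H v (f v)) (A : Finset V) (hA : A.card < Fintype.card V) :
    (Embs G A G).card = (Embs G A H).card := by
  have hV : Nonempty V := by
    rw [← Fintype.card_pos_iff]; omega
  rw [card_embs_eq_prs G A G hV, card_embs_eq_prs G A H hV]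
  exact card_prsJ_eq G H f hyp A 0 (by omega)

lemma abs_tot_le {U : Type*} [Fintype U] [DecidableEq U] (G : SimpleGraph V) (A : Finset V)
    (K : SimpleGraph U) (hcard : Fintype.card V = Fintype.card U) (s : ℕ) (hs : 1 ≤ s)
    (hT : TwinHyp G A) (hC : ∀ u, u ∉ A → (cls G A u).card ≤ s)
    (c : ℝ) (hc1 : 1 ≤ c) (hz : (c + 1) ^ (s + 1) ≤ 2 * c ^ (s + 1)) :
    |Tot (c + 1) G A K| ≤ ((Embs G A K).card : ℝ) * c ^ (Fintype.card V - A.card) := by
  classical
  rw [tot_eq_sum_cx]
  calc |∑ γ ∈ Embs G A K, cxSum (c + 1) ((rng A γ)ᶜ) (Ext G A K γ)|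
      ≤ ∑ γ ∈ Embs G A K, |cxSum (c + 1) ((rng A γ)ᶜ) (Ext G A K γ)| :=
        Finset.abs_sum_le_sum_abs _ _
    _ ≤ ∑ γ ∈ Embs G A K, c ^ (Fintype.card V - A.card) := by
        apply Finset.sum_le_sum
        intro γ hγ
        simp only [Embs, Finset.mem_filter, Finset.mem_univ, true_and] at hγ
        apply abs_cxSum_le (c + 1) c hc1 rfl s hz
        · rw [Finset.card_compl, card_rng hγ.1, ← hcard]
        · exact ext_down G A K γ
        · exact ext_compact G A K γ s hs hT hC _
    _ = ((Embs G A K).card : ℝ) * c ^ (Fintype.card V - A.card) := by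
        rw [Finset.sum_const, nsmul_eq_mul]

/-- **Main theorem, graph form.** -/
theorem master (G : SimpleGraph V) (H : SimpleGraph W) (f : V ≃ W)
    (hyp : ∀ v, CardIso G H v (f v)) (A : Finset V) (s : ℕ)
    (hT : TwinHyp G A) (hC : ∀ u, u ∉ A → (cls G A u).card ≤ s)
    (hcount : (2 * (Embs G A G).card) ^ (s + 1) <
      2 ^ (Fintype.card V - A.card) * (AutEmbs G A).card ^ (s + 1)) :
    ∃ α : V ≃ W, ∀ x y, G.Adj x y ↔ H.Adj (α x) (α y) := by
  classical
  have hcardVW : Fintype.card V = Fintype.card W := Fintype.card_congr f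
  set e := (Embs G A G).card with he
  set r := (AutEmbs G A).card with hr
  set m := Fintype.card V - A.card with hm
  have hre : r ≤ e := Finset.card_le_card (autEmbs_subset G A)
  have hmpos : 0 < m := by
    rcases Nat.eq_zero_or_pos m with h0 | h0
    · exfalso
      rw [h0, pow_zero, one_mul] at hcount
      have : r ^ (s + 1) ≤ (2 * e) ^ (s + 1) := Nat.pow_le_pow_left (by omega) _
      omega
    · exact h0
  have hAlt : A.card < Fintype.card V := by omega
  have hs : 1 ≤ s := by
    have : ∃ u, u ∉ A := by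
      by_contra hcon
      push Not at hcon
      have : A = Finset.univ := Finset.eq_univ_iff_forall.mpr hcon
      rw [this, Finset.card_univ] at hAlt
      exact lt_irrefl _ hAlt
    obtain ⟨u, hu⟩ := this
    have h1 : u ∈ cls G A u := by
      simp only [cls, Finset.mem_filter, Finset.mem_univ, true_and]
      exact ⟨hu, fun _ _ => trivial⟩
    have h2 : 0 < (cls G A u).card := Finset.card_pos.mpr ⟨u, h1⟩
    have := hC u hu
    omega
  by_contra hno
  -- no full pairs in H
  have hH0 : (PrsJ G A H m).card = 0 := by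
    rw [Finset.card_eq_zero, Finset.eq_empty_iff_forall_notMem]
    intro p hp
    obtain ⟨α, _, hα⟩ := iso_of_full G A H hcardVW p hp
    exact hno ⟨α, hα⟩
  -- the parameters
  let t : ℝ := (2 : ℝ) ^ (((s + 1 : ℕ) : ℝ)⁻¹)
  have ht : t ^ (s + 1) = 2 := Real.rpow_inv_natCast_pow (by norm_num) (by omega)
  have ht0 : 0 < t := Real.rpow_pos_of_pos (by norm_num) _
  have ht1 : 1 < t := by
    by_contra hcon
    push Not at hcon
    have : t ^ (s + 1) ≤ 1 := pow_le_one₀ ht0.le hcon
    linarith
  have ht2 : t ≤ 2 := by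
    by_contra hcon
    push Not at hcon
    have h1 : t ^ 1 ≤ t ^ (s + 1) := pow_le_pow_right₀ ht1.le (by omega)
    rw [pow_one, ht] at h1
    linarith
  have htm : 0 < t - 1 := by linarith
  let c : ℝ := 1 / (t - 1)
  have hc0 : 0 < c := div_pos one_pos htm
  have hc1 : 1 ≤ c := by
    rw [le_div_iff₀ htm]; linarith
  have hzc : c + 1 = t * c := by
    have : c * (t - 1) = 1 := by
      simp only [c]
      field_simp
    linarith
  have hz : (c + 1) ^ (s + 1) ≤ 2 * c ^ (s + 1) := by
    rw [hzc, mul_pow, ht]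
  -- bounds for the totals
  have hbG := abs_tot_le G A G rfl s hs hT hC c hc1 hz
  have hbH := abs_tot_le G A H hcardVW s hs hT hC c hc1 hz
  rw [← card_embs_eq G H f hyp A hAlt, ← he] at hbH
  rw [← he] at hbG
  -- the difference
  have hdiff : Tot (c + 1) G A G - Tot (c + 1) G A H =
      (-(c + 1)) ^ m * ((PrsJ G A G m).card : ℝ) := by
    rw [tot_eq_sum_j _ _ _ _ rfl, tot_eq_sum_j _ _ _ _ hcardVW, ← Finset.sum_sub_distrib,
      Finset.sum_range_succ, ← hm, hH0]
    have : ∑ j ∈ Finset.range m, ((-(c + 1)) ^ j * ((PrsJ G A G j).card : ℝ) -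
        (-(c + 1)) ^ j * ((PrsJ G A H j).card : ℝ)) = 0 := by
      apply Finset.sum_eq_zero
      intro j hj
      rw [Finset.mem_range] at hj
      rw [card_prsJ_eq G H f hyp A j (by omega)]
      ring
    rw [this]
    push_cast
    ring
  have habs : (c + 1) ^ m * ((PrsJ G A G m).card : ℝ) ≤ 2 * e * c ^ m := by
    have h1 : |Tot (c + 1) G A G - Tot (c + 1) G A H| ≤ 2 * e * c ^ m := by
      calc |Tot (c + 1) G A G - Tot (c + 1) G A H|
          ≤ |Tot (c + 1) G A G| + |Tot (c + 1) G A H| := abs_sub _ _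
        _ ≤ (e : ℝ) * c ^ m + (e : ℝ) * c ^ m := add_le_add hbG hbH
        _ = 2 * e * c ^ m := by ring
    rw [hdiff, abs_mul, abs_pow, abs_neg, abs_of_pos (by linarith : (0:ℝ) < c + 1),
      abs_of_nonneg (Nat.cast_nonneg _)] at h1
    exact h1
  have hrP : (r : ℝ) ≤ ((PrsJ G A G m).card : ℝ) := by
    exact_mod_cast autEmbs_card_le G A
  have h5 : t ^ m * (r : ℝ) ≤ 2 * e := by
    have h6 : (c + 1) ^ m * (r : ℝ) ≤ 2 * e * c ^ m :=
      (mul_le_mul_of_nonneg_left hrP (pow_nonneg (by linarith) _)).trans habs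
    rw [hzc, mul_pow] at h6
    have hcm : 0 < c ^ m := pow_pos hc0 m
    have h7 : (t ^ m * (r : ℝ)) * c ^ m ≤ (2 * e) * c ^ m := by
      calc (t ^ m * (r : ℝ)) * c ^ m = t ^ m * c ^ m * (r : ℝ) := by ring
        _ ≤ 2 * e * c ^ m := h6
    exact le_of_mul_le_mul_right h7 hcm
  have h8 : (t ^ m * (r : ℝ)) ^ (s + 1) ≤ (2 * e : ℝ) ^ (s + 1) :=
    pow_le_pow_left₀ (by positivity) h5 _
  have h9 : (t ^ m * (r : ℝ)) ^ (s + 1) = 2 ^ m * (r : ℝ) ^ (s + 1) := by
    rw [mul_pow, ← pow_mul, mul_comm m (s + 1), pow_mul, ht]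
  rw [h9] at h8
  have h10 : 2 ^ m * r ^ (s + 1) ≤ (2 * e) ^ (s + 1) := by
    exact_mod_cast h8
  omega

end main

end Pool.Agent.Lib.Recon
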