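import Mathlib
import Pool.Agent.Lib.Recon.Master2
import Pool.Agent.Lib.Recon.CliquePoset

/-!
The reconstruction theorem in terms of Mathlib embeddings and truncated clique lattices.
-/

set_option autoImplicit false
set_option linter.unusedSectionVars false

namespace Pool.Agent.Lib.Recon

open Finset

section

variable {V W : Type*} [Fintype V] [Fintype W]

/-- Functions on `A.toFinset` which are induced embeddings correspond to graph embeddings. -/
noncomputable def embEquiv [DecidableEq V] (G : SimpleGraph V) (A : Set V) [Fintype A] :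
    {γ : A.toFinset → V // IsEmb G A.toFinset G γ} ≃ (G.induce A ↪g G) where
  toFun γ :=
    { toFun := fun a => γ.1 ⟨a.1, Set.mem_toFinset.mpr a.2⟩
      inj' := by
        intro a b h
        have h2 := congrArg Subtype.val (γ.2.1 h)
        exact Subtype.ext h2
      map_rel_iff' := by
        intro a b
        exact (γ.2.2 _ _).symm }
  invFun φ := ⟨fun a => φ ⟨a.1, Set.mem_toFinset.mp a.2⟩, by
    refine ⟨?_, ?_⟩
    · intro a b h
      have h2 := congrArg Subtype.val (φ.injective h)
      exact Subtype.ext h2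
    · intro a b
      have := φ.map_rel_iff' (a := ⟨a.1, Set.mem_toFinset.mp a.2⟩)
        (b := ⟨b.1, Set.mem_toFinset.mp b.2⟩)
      exact this.symm⟩
  left_inv γ := by
    apply Subtype.ext
    funext a
    rfl
  right_inv φ := by
    ext a
    rfl

lemma card_embs [DecidableEq V] (G : SimpleGraph V) (A : Set V) [Fintype A] :
    Nat.card (G.induce A ↪g G) = (Embs G A.toFinset G).card := by
  classical
  rw [← Nat.card_congr (embEquiv G A), Nat.card_eq_fintype_card, Fintype.card_subtype]
  unfold Embs
  apply congrArg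
  ext γ
  simp

lemma card_autEmbs [DecidableEq V] (G : SimpleGraph V) (A : Set V) [Fintype A] :
    Nat.card {φ : G.induce A ↪g G // ∃ α : G ≃g G, ∀ a : A, φ a = α a} =
      (AutEmbs G A.toFinset).card := by
  classical
  have e : {φ : G.induce A ↪g G // ∃ α : G ≃g G, ∀ a : A, φ a = α a} ≃
      {γ : A.toFinset → V // γ ∈ AutEmbs G A.toFinset} := by
    refine ((embEquiv G A).subtypeEquiv (p := fun γ => γ.1 ∈ AutEmbs G A.toFinset)
      (q := fun φ => ∃ α : G ≃g G, ∀ a : A, φ a = α a) ?_).symm.trans ?_
    · intro γ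
      simp only [AutEmbs, Finset.mem_filter, Finset.mem_univ, true_and]
      constructor
      · rintro ⟨α, hα, hγ⟩
        refine ⟨⟨α, fun {x y} => (hα x y).symm⟩, fun a => ?_⟩
        exact hγ ⟨a.1, Set.mem_toFinset.mpr a.2⟩
      · rintro ⟨α, hα⟩
        refine ⟨α.toEquiv, fun x y => α.map_rel_iff'.symm, fun a => ?_⟩
        exact hα ⟨a.1, Set.mem_toFinset.mp a.2⟩
    · exact {
        toFun := fun x => ⟨x.1.1, x.2⟩
        invFun := fun x => ⟨⟨x.1, (Finset.mem_filter.mp (autEmbs_subset G _ x.2)).2⟩, x.2⟩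
        left_inv := fun x => rfl
        right_inv := fun x => rfl }
  rw [Nat.card_congr e]
  simp

/-- Reconstruction theorem, clique lattice form. -/
theorem master_clique (G : SimpleGraph V) (H : SimpleGraph W) (A : Set V) (s : ℕ)
    (htwin : ∀ u v, u ∉ A → v ∉ A → (∀ a ∈ A, G.Adj a u ↔ G.Adj a v) →
      ∀ w, w ≠ u → w ≠ v → (G.Adj w u ↔ G.Adj w v))
    (hsize : ∀ u, u ∉ A → Nat.card {v // v ∉ A ∧ ∀ a ∈ A, G.Adj a u ↔ G.Adj a v} ≤ s)
    (hcount : (2 * Nat.card (G.induce A ↪g G)) ^ (s + 1) <
      2 ^ (Nat.card {v // v ∉ A}) *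
        (Nat.card {φ : G.induce A ↪g G // ∃ α : G ≃g G, ∀ a : A, φ a = α a}) ^ (s + 1))
    (f : V ≃ W)
    (hdeck : ∀ v : V,
      Nonempty ({s : Finset V // s.Nonempty ∧ G.IsClique (s : Set V) ∧ v ∉ s} ≃o
        {t : Finset W // t.Nonempty ∧ H.IsClique (t : Set W) ∧ f v ∉ t})) :
    Nonempty ({s : Finset V // s.Nonempty ∧ G.IsClique (s : Set V)} ≃o
      {t : Finset W // t.Nonempty ∧ H.IsClique (t : Set W)}) := by
  classical
  apply orderIso_of_iso
  have hyp : ∀ v, CardIso G H v (f v) := by
    intro v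
    obtain ⟨e⟩ := hdeck v
    exact cardIso_of_orderIso G H f v e
  apply master G H f hyp A.toFinset s
  · intro u v hu hv h w
    rw [Set.mem_toFinset] at hu hv
    exact htwin u v hu hv (fun a ha => h a (Set.mem_toFinset.mpr ha)) w
  · intro u hu
    rw [Set.mem_toFinset] at hu
    have h1 := hsize u hu
    rw [Nat.card_eq_fintype_card, Fintype.card_subtype] at h1
    refine le_trans (le_of_eq ?_) h1
    unfold cls
    apply congrArg
    ext v
    simp
  · have h1 : Nat.card {v // v ∉ A} = Fintype.card V - A.toFinset.card := by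
      rw [Nat.card_eq_fintype_card, Fintype.card_subtype_compl, Set.toFinset_card]
    rw [h1, card_autEmbs G A, card_embs G A] at hcount
    exact hcount

end

end Pool.Agent.Lib.Recon
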