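import Mathlib

/-!
Averaging over sequences of vertices: few sets of a family are missed by some sequence.
-/

set_option autoImplicit false
set_option linter.unusedSectionVars false

namespace Pool.Agent.Lib.Recon

open Finset

section

variable {V : Type*} [Fintype V] [DecidableEq V]

lemma card_missing (k : ℕ) (S : Finset V) :
    ((Finset.univ : Finset (Fin k → V)).filter (fun a => ∀ j, a j ∉ S)).card =
      (Fintype.card V - S.card) ^ k := by
  classical
  have h1 : ((Finset.univ : Finset (Fin k → V)).filter (fun a => ∀ j, a j ∉ S)) =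
      Fintype.piFinset (fun _ : Fin k => Sᶜ) := by
    ext a
    simp [Fintype.mem_piFinset]
  rw [h1, Fintype.card_piFinset]
  simp [Finset.card_compl]

open Classical in
lemma sum_missing {I : Type*} (k : ℕ) (J : Finset I) (S : I → Finset V) :
    ∑ a : Fin k → V, (J.filter (fun i => ∀ j, a j ∉ S i)).card =
      ∑ i ∈ J, (Fintype.card V - (S i).card) ^ k := by
  have h1 : ∀ a : Fin k → V, (J.filter (fun i => ∀ j, a j ∉ S i)).card =
      ∑ i ∈ J, if (∀ j, a j ∉ S i) then 1 else 0 := by
    intro a
    rw [Finset.card_filter]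
  simp_rw [h1]
  rw [Finset.sum_comm]
  apply Finset.sum_congr rfl
  intro i _
  rw [← Finset.card_filter, ← card_missing]

open Classical in
lemma sum_missing_le {I : Type*} (k : ℕ) (J : Finset I) (S : I → Finset V) (d : ℝ)
    (hd : ∀ i ∈ J, d ≤ (S i).card) (hV : 0 < Fintype.card V) :
    ((∑ a : Fin k → V, (J.filter (fun i => ∀ j, a j ∉ S i)).card : ℕ) : ℝ) ≤
      (Fintype.card V : ℝ) ^ k * (J.card * (1 - d / Fintype.card V) ^ k) := by
  rw [sum_missing]
  push_cast
  have hn : (0 : ℝ) < Fintype.card V := by exact_mod_cast hV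
  calc ∑ i ∈ J, (((Fintype.card V - (S i).card : ℕ)) : ℝ) ^ k
      ≤ ∑ i ∈ J, ((Fintype.card V : ℝ) - d) ^ k := by
        apply Finset.sum_le_sum
        intro i hi
        apply pow_le_pow_left₀ (Nat.cast_nonneg _)
        rw [Nat.cast_sub (Finset.card_le_univ _)]
        linarith [hd i hi]
    _ = (Fintype.card V : ℝ) ^ k * (J.card * (1 - d / Fintype.card V) ^ k) := by
        rw [Finset.sum_const, nsmul_eq_mul]
        have : (Fintype.card V : ℝ) - d = Fintype.card V * (1 - d / Fintype.card V) := by
          field_simp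
        rw [this, mul_pow]
        ring

open Classical in
/-- Averaging lemma for two families. -/
theorem exists_seq {I I' : Type*} (k : ℕ) (J : Finset I) (S : I → Finset V) (d : ℝ)
    (hd : ∀ i ∈ J, d ≤ (S i).card) (J' : Finset I') (S' : I' → Finset V) (d' : ℝ)
    (hd' : ∀ i ∈ J', d' ≤ (S' i).card) (hV : 0 < Fintype.card V) :
    ∃ a : Fin k → V,
      ((J.filter (fun i => ∀ j, a j ∉ S i)).card : ℝ) +
        ((J'.filter (fun i => ∀ j, a j ∉ S' i)).card : ℝ) ≤
        J.card * (1 - d / Fintype.card V) ^ k + J'.card * (1 - d' / Fintype.card V) ^ k := by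
  by_contra hcon
  push Not at hcon
  have hn : (0 : ℝ) < Fintype.card V := by exact_mod_cast hV
  have h1 := sum_missing_le k J S d hd hV
  have h2 := sum_missing_le k J' S' d' hd' hV
  haveI : Nonempty V := Fintype.card_pos_iff.mp hV
  have h3 : ∑ a : Fin k → V,
      (J.card * (1 - d / Fintype.card V) ^ k + J'.card * (1 - d' / Fintype.card V) ^ k) <
      ∑ a : Fin k → V, (((J.filter (fun i => ∀ j, a j ∉ S i)).card : ℝ) +
        ((J'.filter (fun i => ∀ j, a j ∉ S' i)).card : ℝ)) := by
    apply Finset.sum_lt_sum_of_nonempty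
    · exact Finset.univ_nonempty
    · intro a _
      exact hcon a
  rw [Finset.sum_const, Finset.card_univ, Fintype.card_fun, Fintype.card_fin, nsmul_eq_mul,
    Finset.sum_add_distrib] at h3
  push_cast at h1 h2 h3
  nlinarith [h1, h2, h3]

end

end Pool.Agent.Lib.Recon
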