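import Mathlib
import Pool.Agent.Lib.Recon.Master2

/-!
Connected sets: extension of dominating sets and counting of embeddings.
-/

set_option autoImplicit false
set_option linter.unusedSectionVars false

namespace Pool.Agent.Lib.Recon

open Finset

section

variable {V : Type*} [Fintype V] [DecidableEq V]

/-- Sets obtained from a single vertex by repeatedly adding a neighbour. -/
inductive Built (G : SimpleGraph V) : Finset V → Prop
  | single (x : V) : Built G {x}
  | step (T : Finset V) (x y : V) : Built G T → y ∈ T → G.Adj y x → Built G (insert x T)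

/-- In a connected graph, a dominating set `S` is contained in a connected set of size at most
`3 |S| - 2`. -/
theorem exists_built (G : SimpleGraph V) (hG : G.Connected) (S : Finset V) (hS : S.Nonempty)
    (hdom : ∀ v, v ∉ S → ∃ s ∈ S, G.Adj s v) :
    ∃ A : Finset V, Built G A ∧ S ⊆ A ∧ A.card + 2 ≤ 3 * S.card := by
  classical
  -- candidates
  let C : Finset (Finset V) :=
    Finset.univ.filter (fun T => Built G T ∧ T.card + 2 ≤ 3 * (T ∩ S).card)
  obtain ⟨s0, hs0⟩ := hS
  have hC : C.Nonempty := by
    refine ⟨{s0}, ?_⟩
    simp only [C, Finset.mem_filter, Finset.mem_univ, true_and]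
    refine ⟨Built.single s0, ?_⟩
    rw [Finset.singleton_inter_of_mem hs0]
    simp
  obtain ⟨T, hT, hmax⟩ := Finset.exists_max_image C (fun T => (T ∩ S).card) hC
  simp only [C, Finset.mem_filter, Finset.mem_univ, true_and] at hT
  obtain ⟨hTb, hTc⟩ := hT
  have hTne : T.Nonempty := by
    rw [← Finset.card_pos]
    have h1 : (T ∩ S).card ≤ T.card := Finset.card_le_card Finset.inter_subset_left
    omega
  -- no admissible extension gains a vertex of S
  have hno : ∀ T' : Finset V, Built G T' → T'.card ≤ T.card + 3 →
      (T ∩ S).card + 1 ≤ (T' ∩ S).card → False := by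
    intro T' hb hc hi
    have hmem : T' ∈ C := by
      simp only [C, Finset.mem_filter, Finset.mem_univ, true_and]
      exact ⟨hb, by omega⟩
    have := hmax T' hmem
    omega
  have hgain : ∀ (T' : Finset V) (s : V), T ⊆ T' → s ∈ T' → s ∈ S → s ∉ T →
      (T ∩ S).card + 1 ≤ (T' ∩ S).card := by
    intro T' s hTT' hs hsS hsT
    have h1 : insert s (T ∩ S) ⊆ T' ∩ S := by
      intro x hx
      rcases Finset.mem_insert.mp hx with h | h
      · subst h
        exact Finset.mem_inter.mpr ⟨hs, hsS⟩
      · exact Finset.mem_inter.mpr ⟨hTT' (Finset.mem_inter.mp h).1, (Finset.mem_inter.mp h).2⟩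
    have h2 : s ∉ T ∩ S := fun h => hsT (Finset.mem_inter.mp h).1
    have h3 := Finset.card_le_card h1
    rwa [Finset.card_insert_of_notMem h2] at h3
  have hST : S ⊆ T := by
    by_contra hcon
    rw [Finset.not_subset] at hcon
    obtain ⟨s1, hs1S, hs1T⟩ := hcon
    -- distance 1
    have hd1 : ∀ t ∈ T, ∀ s ∈ S, s ∉ T → ¬ G.Adj t s := by
      intro t ht s hs hsT hadj
      apply hno (insert s T) (Built.step T s t hTb ht hadj)
      · have := Finset.card_insert_le s T
        omega
      · exact hgain _ s (Finset.subset_insert s T) (Finset.mem_insert_self s T) hs hsT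
    have hd2 : ∀ t ∈ T, ∀ x, G.Adj t x → ∀ s ∈ S, s ∉ T → ¬ G.Adj x s := by
      intro t ht x htx s hs hsT hadj
      apply hno (insert s (insert x T))
        (Built.step _ s x (Built.step T x t hTb ht htx) (Finset.mem_insert_self x T) hadj)
      · have h1 := Finset.card_insert_le s (insert x T)
        have h2 := Finset.card_insert_le x T
        omega
      · exact hgain _ s ((Finset.subset_insert x T).trans (Finset.subset_insert s _))
          (Finset.mem_insert_self s _) hs hsT
    have hd3 : ∀ t ∈ T, ∀ x, G.Adj t x → ∀ y, G.Adj x y → ∀ s ∈ S, s ∉ T → ¬ G.Adj y s := by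
      intro t ht x htx y hxy s hs hsT hadj
      apply hno (insert s (insert y (insert x T)))
        (Built.step _ s y (Built.step _ y x (Built.step T x t hTb ht htx)
          (Finset.mem_insert_self x T) hxy) (Finset.mem_insert_self y _) hadj)
      · have h1 := Finset.card_insert_le s (insert y (insert x T))
        have h2 := Finset.card_insert_le y (insert x T)
        have h3 := Finset.card_insert_le x T
        omega
      · exact hgain _ s (((Finset.subset_insert x T).trans (Finset.subset_insert y _)).trans
          (Finset.subset_insert s _)) (Finset.mem_insert_self s _) hs hsT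
    -- the closed neighbourhood of T is closed under adjacency
    have hclosed : ∀ x y, (x ∈ T ∨ ∃ t ∈ T, G.Adj t x) → G.Adj x y →
        (y ∈ T ∨ ∃ t ∈ T, G.Adj t y) := by
      intro x y hx hxy
      rcases hx with hx | ⟨t, ht, htx⟩
      · exact Or.inr ⟨x, hx, hxy⟩
      · by_cases hyT : y ∈ T
        · exact Or.inl hyT
        · by_cases hyS : y ∈ S
          · exact absurd hxy (hd2 t ht x htx y hyS hyT)
          · obtain ⟨s, hs, hsy⟩ := hdom y hyS
            by_cases hsT : s ∈ T
            · exact Or.inr ⟨s, hsT, hsy⟩
            · exact absurd hsy.symm (hd3 t ht x htx y hxy s hs hsT)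
    have hwalk : ∀ (x y : V), G.Walk x y → (x ∈ T ∨ ∃ t ∈ T, G.Adj t x) →
        (y ∈ T ∨ ∃ t ∈ T, G.Adj t y) := by
      intro x y p
      induction p with
      | nil => exact fun h => h
      | cons h _ ih => exact fun hx => ih (hclosed _ _ hx h)
    obtain ⟨t0, ht0⟩ := hTne
    obtain ⟨p⟩ := hG.preconnected t0 s1
    rcases hwalk t0 s1 p (Or.inl ht0) with h | ⟨t, ht, htx⟩
    · exact hs1T h
    · exact hd1 t ht s1 hs1S hs1T htx
  refine ⟨T, hTb, hST, ?_⟩
  have : (T ∩ S).card ≤ S.card := Finset.card_le_card Finset.inter_subset_right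
  omega

lemma built_nonempty (G : SimpleGraph V) {A : Finset V} (h : Built G A) : A.Nonempty := by
  induction h with
  | single x => exact Finset.singleton_nonempty x
  | step T x y _ _ _ _ => exact Finset.insert_nonempty x T

/-- A connected set has few embeddings. -/
theorem card_embs_le (G : SimpleGraph V) (Δ : ℕ)
    (hΔ : ∀ v, ∀ S : Finset V, (∀ w ∈ S, G.Adj v w) → S.card ≤ Δ)
    (A : Finset V) (hA : Built G A) :
    (Embs G A G).card ≤ Fintype.card V * Δ ^ (A.card - 1) := by
  classical
  induction hA with
  | single x =>
    have h1 : (Embs G {x} G).card ≤ Fintype.card (↥({x} : Finset V) → V) := Finset.card_le_univ _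
    have h2 : Fintype.card (↥({x} : Finset V) → V) = Fintype.card V := by
      rw [Fintype.card_fun]
      simp
    simp only [Finset.card_singleton, Nat.sub_self, pow_zero, mul_one]
    omega
  | step T x y hT hy hadj ih =>
    by_cases hxT : x ∈ T
    · rw [Finset.insert_eq_of_mem hxT]
      exact ih
    · rw [Finset.card_insert_of_notMem hxT]
      have hTpos : 0 < T.card := Finset.card_pos.mpr (built_nonempty G hT)
      have hpow : Δ ^ (T.card + 1 - 1) = Δ ^ (T.card - 1) * Δ := by
        rw [← pow_succ]
        congr 1
        omega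
      rw [hpow, ← mul_assoc]
      let res : (↥(insert x T) → V) → (↥T → V) :=
        fun γ t => γ ⟨t.1, Finset.mem_insert_of_mem t.2⟩
      have hmaps : ∀ γ ∈ Embs G (insert x T) G, res γ ∈ Embs G T G := by
        intro γ hγ
        simp only [Embs, Finset.mem_filter, Finset.mem_univ, true_and] at hγ ⊢
        refine ⟨?_, ?_⟩
        · intro a b h
          have h2 := congrArg Subtype.val (hγ.1 h)
          exact Subtype.ext h2
        · intro a b
          exact hγ.2 ⟨a.1, Finset.mem_insert_of_mem a.2⟩ ⟨b.1, Finset.mem_insert_of_mem b.2⟩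
      have hfib : ∀ δ ∈ Embs G T G,
          ((Embs G (insert x T) G).filter (fun γ => res γ = δ)).card ≤ Δ := by
        intro δ _
        have hinj : Set.InjOn (fun γ : ↥(insert x T) → V => γ ⟨x, Finset.mem_insert_self x T⟩)
            ((Embs G (insert x T) G).filter (fun γ => res γ = δ) : Finset _) := by
          intro γ hγ γ' hγ' h
          have h1 := (Finset.mem_filter.mp (Finset.mem_coe.mp hγ)).2
          have h2 := (Finset.mem_filter.mp (Finset.mem_coe.mp hγ')).2
          funext ⟨z, hz⟩
          rcases Finset.mem_insert.mp hz with hzx | hzT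
          · subst hzx
            exact h
          · have h3 := congrFun (h1.trans h2.symm) ⟨z, hzT⟩
            exact h3
        rw [← Finset.card_image_of_injOn hinj]
        apply hΔ (δ ⟨y, hy⟩)
        intro w hw
        obtain ⟨γ, hγ, rfl⟩ := Finset.mem_image.mp hw
        have hγ' := Finset.mem_filter.mp hγ
        have hγe := hγ'.1
        simp only [Embs, Finset.mem_filter, Finset.mem_univ, true_and] at hγe
        have h1 : δ ⟨y, hy⟩ = γ ⟨y, Finset.mem_insert_of_mem hy⟩ := by
          rw [← hγ'.2]
        rw [h1]
        exact (hγe.2 ⟨y, Finset.mem_insert_of_mem hy⟩ ⟨x, Finset.mem_insert_self x T⟩).mp hadj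
      have := Finset.card_le_mul_card_image_of_maps_to hmaps Δ hfib
      calc (Embs G (insert x T) G).card ≤ Δ * (Embs G T G).card := this
        _ ≤ Δ * (Fintype.card V * Δ ^ (T.card - 1)) := Nat.mul_le_mul_left _ ih
        _ = Fintype.card V * Δ ^ (T.card - 1) * Δ := by ring

end

end Pool.Agent.Lib.Recon
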