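import Mathlib
import Pool.Agent.Recon.Main
import Pool.Agent.Lib.Recon.Final

/-!
Graphs with few twin classes: combination of the counting theorem with the twin excess theorem.
-/

set_option autoImplicit false
set_option linter.unusedSectionVars false

namespace Pool.Agent.Lib.Recon

open Finset Pool.Agent.Recon

universe u

section

variable {V : Type u} [Fintype V]

/-- The number of twin classes with exactly `i` vertices. -/
noncomputable def nClass (G : SimpleGraph V) (i : ℕ) : ℕ :=
  Nat.card {c : TwinClass G // classSize G c = i}

noncomputable instance instFintypeTwinClass (G : SimpleGraph V) : Fintype (TwinClass G) :=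
  Fintype.ofFinite _

lemma sum_classSize (G : SimpleGraph V) : ∑ c : TwinClass G, classSize G c = Fintype.card V := by
  classical
  have h : Fintype.card V = Fintype.card (Σ c : TwinClass G, {x : V // twinClass G x = c}) := by
    apply Fintype.card_congr
    exact (Equiv.sigmaFiberEquiv (twinClass G)).symm
  rw [h, Fintype.card_sigma]
  apply Finset.sum_congr rfl
  intro c _
  unfold classSize
  rw [Nat.card_eq_fintype_card]

lemma nClass_eq (G : SimpleGraph V) (i : ℕ) :
    nClass G i = ((Finset.univ : Finset (TwinClass G)).filter (fun c => classSize G c = i)).card := by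
  classical
  unfold nClass
  rw [Nat.card_eq_fintype_card, Fintype.card_subtype]

/-- If all sizes up to `L` occur then `L (L + 1) / 2 ≤ n`. -/
lemma tri_le (G : SimpleGraph V) (L : ℕ) (h : ∀ i, 1 ≤ i → i ≤ L → 1 ≤ nClass G i) :
    L * (L + 1) ≤ 2 * Fintype.card V := by
  classical
  have h1 : ∑ i ∈ Finset.Icc 1 L, i ≤ Fintype.card V := by
    rw [← sum_classSize G]
    calc ∑ i ∈ Finset.Icc 1 L, i
        ≤ ∑ i ∈ Finset.Icc 1 L, ∑ c ∈ (Finset.univ : Finset (TwinClass G)).filter
            (fun c => classSize G c = i), classSize G c := by
          apply Finset.sum_le_sum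
          intro i hi
          rw [Finset.mem_Icc] at hi
          have h2 := h i hi.1 hi.2
          rw [nClass_eq] at h2
          have h3 : ∑ c ∈ (Finset.univ : Finset (TwinClass G)).filter
              (fun c => classSize G c = i), classSize G c =
              ((Finset.univ : Finset (TwinClass G)).filter
                (fun c => classSize G c = i)).card * i := by
            rw [Finset.sum_congr rfl (fun c hc => (Finset.mem_filter.mp hc).2)]
            simp
          rw [h3]
          nlinarith
      _ = ∑ c ∈ (Finset.univ : Finset (TwinClass G)).filter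
            (fun c => classSize G c ∈ Finset.Icc 1 L), classSize G c := by
          rw [← Finset.sum_fiberwise_of_maps_to
            (s := (Finset.univ : Finset (TwinClass G)).filter
              (fun c => classSize G c ∈ Finset.Icc 1 L))
            (t := Finset.Icc 1 L) (g := fun c => classSize G c)
            (fun c hc => (Finset.mem_filter.mp hc).2)]
          apply Finset.sum_congr rfl
          intro i hi
          apply Finset.sum_congr _ (fun _ _ => rfl)
          ext c
          simp only [Finset.mem_filter, Finset.mem_univ, true_and]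
          constructor
          · intro hc
            rw [hc]
            exact ⟨hi, rfl⟩
          · intro hc
            exact hc.2
      _ ≤ ∑ c : TwinClass G, classSize G c := by
          apply Finset.sum_le_sum_of_subset
          exact Finset.filter_subset _ _
  have h4 : (∑ i ∈ Finset.Icc 1 L, i) * 2 = L * (L + 1) := by
    clear h1 h
    induction L with
    | zero => simp
    | succ k ih =>
      rw [Finset.sum_Icc_succ_top (by omega), add_mul, ih]
      ring
  omega

/-- Without a twin excess all sizes below the size of a class occur. -/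
lemma size_le_of_not_excess (G : SimpleGraph V) (h : ¬ HasTwinExcess G) (c : TwinClass G)
    (hc : 3 ≤ classSize G c) :
    classSize G c * (classSize G c + 1) ≤ 2 * Fintype.card V := by
  classical
  apply tri_le
  -- number of classes is at most n - 2
  have hq : Nat.card (TwinClass G) + 2 ≤ Fintype.card V := by
    rw [Nat.card_eq_fintype_card, ← sum_classSize G, ← Finset.sum_erase_add _ _ (Finset.mem_univ c)]
    have h1 : (Finset.univ.erase c).card ≤ ∑ x ∈ Finset.univ.erase c, classSize G x := by
      rw [Finset.card_eq_sum_ones]
      apply Finset.sum_le_sum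
      intro x _
      obtain ⟨v, hv⟩ := Quotient.exists_rep x
      unfold classSize
      have : Nonempty {x' : V // twinClass G x' = x} := ⟨⟨v, hv⟩⟩
      exact Nat.card_pos
    rw [Finset.card_erase_of_mem (Finset.mem_univ c), Finset.card_univ] at h1
    omega
  have hmono : ∀ i, 1 ≤ i → nClass G (i + 1) ≤ nClass G i := by
    intro i hi
    by_contra hlt
    push Not at hlt
    apply h
    refine ⟨hq, Set.univ, i, hi, fun _ _ _ => Set.mem_univ _, ?_⟩
    unfold nClass at hlt
    simpa using hlt
  have htop : 1 ≤ nClass G (classSize G c) := by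
    rw [nClass_eq]
    apply Finset.card_pos.mpr
    exact ⟨c, by simp⟩
  -- descend
  have key : ∀ d i, i + d = classSize G c → 1 ≤ i → 1 ≤ nClass G i := by
    intro d
    induction d with
    | zero =>
      intro i hi _
      rw [add_zero] at hi
      rw [hi]; exact htop
    | succ d ih =>
      intro i hi h1
      exact (ih (i + 1) (by omega) (by omega)).trans (hmono i h1)
  intro i h1 h2
  exact key (classSize G c - i) i (by omega) h1

/-- A set of pairwise nonadjacent twins is contained in a twin class. -/
lemma card_le_classSize (G : SimpleGraph V) (u : V) (C : Set V)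
    (hC : ∀ v ∈ C, G.neighborSet v = G.neighborSet u) :
    Nat.card C ≤ classSize G (twinClass G u) := by
  classical
  unfold classSize
  apply Nat.card_le_card_of_injective
    (fun x : C => (⟨x.1, (twinClass_eq_iff G x.1 u).mpr (hC x.1 x.2)⟩ :
      {x : V // twinClass G x = twinClass G u}))
  intro x y hxy
  apply Subtype.ext
  exact congrArg (fun z => z.1) hxy

/-- Without a twin excess in `G` and in its complement, sets of pairwise twins are small. -/
lemma twins_card_le (G : SimpleGraph V) (h : ¬ (HasTwinExcess G ∨ HasTwinExcess Gᶜ)) (s : ℕ)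
    (hs2 : 2 ≤ s) (hs : 2 * Fintype.card V < (s + 1) * (s + 2)) (C : Set V)
    (hC : ∀ u ∈ C, ∀ v ∈ C, ∀ w, w ≠ u → w ≠ v → (G.Adj w u ↔ G.Adj w v)) :
    Nat.card C ≤ s := by
  classical
  by_contra hlt
  push Not at hlt
  have hne : Nonempty C := by
    by_contra h0
    rw [not_nonempty_iff] at h0
    rw [Nat.card_of_isEmpty] at hlt
    omega
  obtain ⟨u, hu⟩ := hne
  -- all other members of the class are adjacent to `u`, or none is
  have hhom : (∀ v ∈ C, v ≠ u → G.Adj u v) ∨ (∀ v ∈ C, v ≠ u → ¬ G.Adj u v) := by
    by_cases hx : ∃ v ∈ C, v ≠ u ∧ G.Adj u v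
    · obtain ⟨v, hv, hvu, hadj⟩ := hx
      left
      intro w hw hwu
      exact (hC v hv w hw u hvu.symm hwu.symm).mp hadj
    · right
      intro v hv hvu hadj
      exact hx ⟨v, hv, hvu, hadj⟩
  have main : ∀ (K : SimpleGraph V), ¬ HasTwinExcess K →
      (∀ v ∈ C, K.neighborSet v = K.neighborSet u) → False := by
    intro K hK hnb
    have h1 := card_le_classSize K u C hnb
    have h2 := size_le_of_not_excess K hK (twinClass K u) (by omega)
    have h3 : (s + 1) * (s + 2) ≤
        classSize K (twinClass K u) * (classSize K (twinClass K u) + 1) :=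
      Nat.mul_le_mul (by omega) (by omega)
    omega
  rcases hhom with hadj | hnadj
  · apply main Gᶜ (fun h' => h (Or.inr h'))
    intro v hv
    ext w
    simp only [SimpleGraph.mem_neighborSet, SimpleGraph.compl_adj]
    by_cases hvu : v = u
    · subst hvu; exact Iff.rfl
    by_cases hwv : w = v
    · subst hwv
      constructor
      · intro hh; exact absurd rfl hh.1
      · intro hh; exact absurd (hadj w hv hvu) hh.2
    by_cases hwu : w = u
    · subst hwu
      constructor
      · intro hh; exact absurd (hadj v hv hvu).symm hh.2
      · intro hh; exact absurd rfl hh.1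
    have h1 := hC v hv u hu w hwv hwu
    rw [G.adj_comm v w, G.adj_comm u w, h1]
    constructor
    · intro hh; exact ⟨fun h' => hwu h'.symm, hh.2⟩
    · intro hh; exact ⟨fun h' => hwv h'.symm, hh.2⟩
  · apply main G (fun h' => h (Or.inl h'))
    intro v hv
    ext w
    simp only [SimpleGraph.mem_neighborSet]
    by_cases hvu : v = u
    · subst hvu; exact Iff.rfl
    by_cases hwv : w = v
    · subst hwv
      constructor
      · intro hh; exact absurd hh (G.loopless.irrefl _)
      · intro hh; exact absurd hh (hnadj w hv hvu)
    by_cases hwu : w = u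
    · subst hwu
      constructor
      · intro hh; exact absurd hh.symm (hnadj v hv hvu)
      · intro hh; exact absurd hh (G.loopless.irrefl _)
    have h1 := hC v hv u hu w hwv hwu
    rw [G.adj_comm v w, G.adj_comm u w, h1]

/-- Reconstruction of graphs with a small distinguishing set, no condition on twin classes. -/
theorem diversity_clique (G : SimpleGraph V) (hn : 8 ≤ Fintype.card V) (A : Set V) (s : ℕ)
    (htwin : ∀ u v, u ∉ A → v ∉ A → (∀ a ∈ A, G.Adj a u ↔ G.Adj a v) →
      ∀ w, w ≠ u → w ≠ v → (G.Adj w u ↔ G.Adj w v))
    (hs : 2 * Fintype.card V < (s + 1) * (s + 2))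
    (hcount : (2 * Nat.card (G.induce A ↪g G)) ^ (s + 1) <
      2 ^ (Nat.card {v // v ∉ A}) *
        (Nat.card {φ : G.induce A ↪g G // ∃ α : G ≃g G, ∀ a : A, φ a = α a}) ^ (s + 1))
    (W : Type u) [Fintype W] (H : SimpleGraph W) (f : V ≃ W)
    (hdeck : ∀ v : V,
      Nonempty ({s : Finset V // s.Nonempty ∧ G.IsClique (s : Set V) ∧ v ∉ s} ≃o
        {t : Finset W // t.Nonempty ∧ H.IsClique (t : Set W) ∧ f v ∉ t})) :
    Nonempty ({s : Finset V // s.Nonempty ∧ G.IsClique (s : Set V)} ≃o
      {t : Finset W // t.Nonempty ∧ H.IsClique (t : Set W)}) := by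
  classical
  by_cases hex : HasTwinExcess G ∨ HasTwinExcess Gᶜ
  · exact isReconstructible_of_twinExcess G hn hex W H f hdeck
  · have hs2 : 2 ≤ s := by
      by_contra hlt
      have h1 : (s + 1) * (s + 2) ≤ 2 * 3 := Nat.mul_le_mul (by omega) (by omega)
      omega
    refine master_clique G H A s htwin ?_ hcount f hdeck
    intro u hu
    have h1 := twins_card_le G hex s hs2 hs {v | v ∉ A ∧ ∀ a ∈ A, G.Adj a u ↔ G.Adj a v} ?_
    · exact h1
    · intro x hx y hy
      exact htwin x y hx.1 hy.1 (fun a ha => (hx.2 a ha).symm.trans (hy.2 a ha))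

end

end Pool.Agent.Lib.Recon
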