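import Mathlib
import Pool.Agent.Lib.Recon.Connect
import Pool.Agent.Lib.Recon.Average

/-!
Existence of a small connected distinguishing set.
-/

set_option autoImplicit false
set_option linter.unusedSectionVars false

namespace Pool.Agent.Lib.Recon

open Finset

section

variable {V : Type*} [Fintype V] [DecidableEq V]

/-- `u` and `v` are twins (or equal): they have the same neighbours among the other vertices. -/
def Tw (G : SimpleGraph V) (u v : V) : Prop :=
  ∀ w, w ≠ u → w ≠ v → (G.Adj w u ↔ G.Adj w v)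

lemma Tw.symm {G : SimpleGraph V} {u v : V} (h : Tw G u v) : Tw G v u :=
  fun w h1 h2 => (h w h2 h1).symm

open Classical in
/-- The vertices distinguishing `u` and `v`. -/
noncomputable def dset (G : SimpleGraph V) (u v : V) : Finset V :=
  Finset.univ.filter (fun w => w ≠ u ∧ w ≠ v ∧ ¬ (G.Adj w u ↔ G.Adj w v))

open Classical in
/-- The neighbourhood of `u`. -/
noncomputable def nb (G : SimpleGraph V) (u : V) : Finset V :=
  Finset.univ.filter (fun w => G.Adj u w)

lemma mem_nb {G : SimpleGraph V} {u w : V} : w ∈ nb G u ↔ G.Adj u w := by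
  simp [nb]

lemma mem_dset {G : SimpleGraph V} {u v w : V} :
    w ∈ dset G u v ↔ w ≠ u ∧ w ≠ v ∧ ¬ (G.Adj w u ↔ G.Adj w v) := by
  simp [dset]

lemma card_dset_le (G : SimpleGraph V) (u v : V) :
    (dset G u v).card ≤ (nb G u).card + (nb G v).card := by
  classical
  refine le_trans (Finset.card_le_card ?_) (Finset.card_union_le _ _)
  intro w hw
  rw [mem_dset] at hw
  rw [Finset.mem_union, mem_nb, mem_nb]
  by_contra hcon
  push Not at hcon
  apply hw.2.2
  constructor
  · intro h; exact absurd h.symm hcon.1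
  · intro h; exact absurd h.symm hcon.2

theorem exists_local (G : SimpleGraph V) (hG : G.Connected) (hn : 2 ≤ Fintype.card V) (Δ : ℕ)
    (hΔ : ∀ v, (nb G v).card ≤ Δ) (D : ℝ) (_hD0 : 0 ≤ D) (hDn : D ≤ Fintype.card V)
    (hD : ∀ u v, ¬ Tw G u v → D ≤ ((dset G u v).card : ℝ)) (k : ℕ) :
    ∃ A : Finset V, Built G A ∧
      (∀ u v, u ∉ A → v ∉ A → (∀ a ∈ A, G.Adj a u ↔ G.Adj a v) → Tw G u v) ∧
      ((A.card : ℝ) + 2 ≤ 3 * (k + 1 +
        (Fintype.card V * Δ ^ 2 * (1 - D / Fintype.card V) ^ k +
          Fintype.card V * (1 - D / 2 / Fintype.card V) ^ k))) := by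
  classical
  have hV : 0 < Fintype.card V := by omega
  have hnR : (0 : ℝ) < Fintype.card V := by exact_mod_cast hV
  -- the families
  let I : Finset (V × V) := Finset.univ.filter
    (fun p => ¬ Tw G p.1 p.2 ∧ ∃ a, G.Adj a p.1 ∧ G.Adj a p.2)
  let J : Finset V := Finset.univ.filter (fun u => D / 2 ≤ ((nb G u).card : ℝ))
  have hIcard : I.card ≤ Fintype.card V * Δ ^ 2 := by
    have hsub : I ⊆ Finset.univ.biUnion (fun a => (nb G a) ×ˢ (nb G a)) := by
      intro p hp
      simp only [I, Finset.mem_filter, Finset.mem_univ, true_and] at hp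
      obtain ⟨_, a, h1, h2⟩ := hp
      rw [Finset.mem_biUnion]
      refine ⟨a, Finset.mem_univ a, ?_⟩
      rw [Finset.mem_product, mem_nb, mem_nb]
      exact ⟨h1, h2⟩
    calc I.card ≤ (Finset.univ.biUnion (fun a => (nb G a) ×ˢ (nb G a))).card :=
          Finset.card_le_card hsub
      _ ≤ ∑ a : V, ((nb G a) ×ˢ (nb G a)).card := Finset.card_biUnion_le
      _ ≤ ∑ a : V, Δ ^ 2 := by
          apply Finset.sum_le_sum
          intro a _
          rw [Finset.card_product, sq]
          exact Nat.mul_le_mul (hΔ a) (hΔ a)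
      _ = Fintype.card V * Δ ^ 2 := by
          rw [Finset.sum_const, smul_eq_mul, Finset.card_univ]
  have hJcard : J.card ≤ Fintype.card V := Finset.card_le_univ J
  obtain ⟨a, ha⟩ := exists_seq k I (fun p => dset G p.1 p.2) D
    (by
      intro p hp
      simp only [I, Finset.mem_filter, Finset.mem_univ, true_and] at hp
      exact hD _ _ hp.1)
    J (fun u => nb G u) (D / 2)
    (by
      intro u hu
      simp only [J, Finset.mem_filter, Finset.mem_univ, true_and] at hu
      exact hu) hV
  set U1 := I.filter (fun i => ∀ j, a j ∉ dset G i.1 i.2) with hU1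
  set U2 := J.filter (fun i => ∀ j, a j ∉ nb G i) with hU2
  -- the vertex a0
  have ha0 : ∃ a0 : V, ∀ z, z ∉ J → z = a0 ∨ G.Adj a0 z := by
    by_cases hZ : ∃ z0, z0 ∉ J
    · obtain ⟨z0, hz0⟩ := hZ
      -- a neighbour of z0
      have : Nontrivial V := Fintype.one_lt_card_iff_nontrivial.mp (by omega)
      obtain ⟨b, hb⟩ : ∃ b, G.Adj z0 b := hG.preconnected.exists_adj_of_nontrivial z0
      refine ⟨b, ?_⟩
      intro z hz
      by_cases hzb : z = b
      · exact Or.inl hzb
      · right
        by_cases hzz : z = z0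
        · rw [hzz]; exact hb.symm
        · have htw : Tw G z0 z := by
            by_contra hcon
            have h1 := hD _ _ hcon
            have h2 : ((dset G z0 z).card : ℝ) ≤ (nb G z0).card + (nb G z).card := by
              exact_mod_cast card_dset_le G z0 z
            simp only [J, Finset.mem_filter, Finset.mem_univ, true_and, not_le] at hz0 hz
            linarith
          exact (htw b hb.ne.symm (Ne.symm hzb)).mp hb.symm
    · push Not at hZ
      have : Nonempty V := Fintype.card_pos_iff.mp hV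
      exact ⟨Classical.arbitrary V, fun z hz => absurd (hZ z) hz⟩
  obtain ⟨a0, ha0⟩ := ha0
  let S : Finset V := (Finset.univ.image a) ∪ (U1.image Prod.fst) ∪ U2 ∪ {a0}
  have hSmem : ∀ v, v ∉ S → (∀ j, a j ≠ v) ∧ (∀ p ∈ U1, p.1 ≠ v) ∧ v ∉ U2 ∧ v ≠ a0 := by
    intro v hv
    simp only [S, Finset.mem_union, not_or, Finset.mem_singleton] at hv
    obtain ⟨⟨⟨h1, h2⟩, h3⟩, h4⟩ := hv
    refine ⟨fun j hj => h1 (Finset.mem_image.mpr ⟨j, Finset.mem_univ j, hj⟩),
      fun p hp hpv => h2 (Finset.mem_image.mpr ⟨p, hp, hpv⟩), h3, h4⟩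
  have haS : ∀ j, a j ∈ S := by
    intro j
    simp only [S, Finset.mem_union]
    exact Or.inl (Or.inl (Or.inl (Finset.mem_image.mpr ⟨j, Finset.mem_univ j, rfl⟩)))
  have ha0S : a0 ∈ S := by simp [S]
  -- S is dominating
  have hdom : ∀ v, v ∉ S → ∃ s ∈ S, G.Adj s v := by
    intro v hv
    obtain ⟨h1, h2, h3, h4⟩ := hSmem v hv
    by_cases hvJ : v ∈ J
    · -- hit
      have : ∃ j, a j ∈ nb G v := by
        by_contra hcon
        push Not at hcon
        exact h3 (Finset.mem_filter.mpr ⟨hvJ, hcon⟩)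
      obtain ⟨j, hj⟩ := this
      exact ⟨a j, haS j, (mem_nb.mp hj).symm⟩
    · rcases ha0 v hvJ with h | h
      · exact absurd h h4
      · exact ⟨a0, ha0S, h⟩
  obtain ⟨A, hA, hSA, hAc⟩ := exists_built G hG S ⟨a0, ha0S⟩ hdom
  refine ⟨A, hA, ?_, ?_⟩
  · intro u v hu hv htr
    have huS : u ∉ S := fun h => hu (hSA h)
    by_contra htw
    by_cases hcn : ∃ b, G.Adj b u ∧ G.Adj b v
    · have hpI : (u, v) ∈ I := by
        simp only [I, Finset.mem_filter, Finset.mem_univ, true_and]
        exact ⟨htw, hcn⟩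
      have hhit : ∃ j, a j ∈ dset G u v := by
        by_contra hcon
        push Not at hcon
        have : (u, v) ∈ U1 := Finset.mem_filter.mpr ⟨hpI, hcon⟩
        exact (hSmem u huS).2.1 _ this rfl
      obtain ⟨j, hj⟩ := hhit
      exact (mem_dset.mp hj).2.2 (htr (a j) (hSA (haS j)))
    · push Not at hcn
      obtain ⟨s, hs, hsu⟩ := hdom u huS
      exact hcn s hsu ((htr s (hSA hs)).mp hsu)
  · have hScard : S.card ≤ k + U1.card + U2.card + 1 := by
      have e1 : (Finset.univ.image a).card ≤ k := by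
        refine le_trans Finset.card_image_le ?_
        simp
      have e2 : (U1.image Prod.fst).card ≤ U1.card := Finset.card_image_le
      have e3 : S.card ≤ ((Finset.univ.image a) ∪ (U1.image Prod.fst) ∪ U2).card + 1 := by
        refine le_trans (Finset.card_union_le _ _) ?_
        simp
      have e4 := Finset.card_union_le ((Finset.univ.image a) ∪ (U1.image Prod.fst)) U2
      have e5 := Finset.card_union_le (Finset.univ.image a) (U1.image Prod.fst)
      omega
    have hAcR : (A.card : ℝ) + 2 ≤ 3 * S.card := by exact_mod_cast hAc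
    have hScR : (S.card : ℝ) ≤ k + U1.card + U2.card + 1 := by exact_mod_cast hScard
    -- nonnegativity of the powers
    have hq1 : (0 : ℝ) ≤ (1 - D / Fintype.card V) ^ k := by
      apply pow_nonneg
      rw [sub_nonneg, div_le_one hnR]
      exact hDn
    have hq2 : (0 : ℝ) ≤ (1 - D / 2 / Fintype.card V) ^ k := by
      apply pow_nonneg
      rw [sub_nonneg, div_le_one hnR]
      linarith
    have hI' : (I.card : ℝ) ≤ Fintype.card V * Δ ^ 2 := by exact_mod_cast hIcard
    have hJ' : (J.card : ℝ) ≤ Fintype.card V := by exact_mod_cast hJcard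
    have h1 := mul_le_mul_of_nonneg_right hI' hq1
    have h2 := mul_le_mul_of_nonneg_right hJ' hq2
    linarith

end

end Pool.Agent.Lib.Recon
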