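import Mathlib

/-!
The numerical estimate used for graphs with large local differences.
-/

set_option autoImplicit false

namespace Pool.Agent.Lib.Recon

/-- `8 L ^ 2 ≤ 2 ^ L` and `1 ≤ L` imply `9 ≤ L`. -/
lemma nine_le (L : ℝ) (h1 : 1 ≤ L) (h : 8 * L ^ 2 ≤ (2 : ℝ) ^ L) : 9 ≤ L := by
  by_contra hcon
  push Not at hcon
  have key : ∀ j : ℝ, ∀ m : ℕ, (m : ℝ) = j + 1 → 0 ≤ j → j ≤ L → L < j + 1 →
      (2 : ℝ) ^ m ≤ 8 * j ^ 2 → False := by
    intro j m hm hj0 hj1 hj2 hj3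
    have h2 : (2 : ℝ) ^ L < (2 : ℝ) ^ (j + 1) :=
      Real.rpow_lt_rpow_of_exponent_lt (by norm_num) hj2
    have h3 : (2 : ℝ) ^ (j + 1) = (2 : ℝ) ^ m := by
      rw [← hm, Real.rpow_natCast]
    rw [h3] at h2
    have h4 : j ^ 2 ≤ L ^ 2 := by
      apply pow_le_pow_left₀ hj0 hj1
    linarith
  rcases lt_or_ge L 2 with h2 | h2
  · exact key 1 2 (by norm_num) (by norm_num) h1 (by linarith) (by norm_num)
  rcases lt_or_ge L 3 with h3 | h3
  · exact key 2 3 (by norm_num) (by norm_num) h2 (by linarith) (by norm_num)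
  rcases lt_or_ge L 4 with h4 | h4
  · exact key 3 4 (by norm_num) (by norm_num) h3 (by linarith) (by norm_num)
  rcases lt_or_ge L 5 with h5 | h5
  · exact key 4 5 (by norm_num) (by norm_num) h4 (by linarith) (by norm_num)
  rcases lt_or_ge L 6 with h6 | h6
  · exact key 5 6 (by norm_num) (by norm_num) h5 (by linarith) (by norm_num)
  rcases lt_or_ge L 7 with h7 | h7
  · exact key 6 7 (by norm_num) (by norm_num) h6 (by linarith) (by norm_num)
  rcases lt_or_ge L 8 with h8 | h8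
  · exact key 7 8 (by norm_num) (by norm_num) h7 (by linarith) (by norm_num)
  · exact key 8 9 (by norm_num) (by norm_num) h8 (by linarith) (by norm_num)

/-- `exp (- c x) ≤ 2 ^ (- d x)` when `7 d ≤ 10 c` (using `log 2 ≤ 0.7`). -/
lemma exp_le_two_rpow (x c d : ℝ) (hx : 0 ≤ x) (hd : 0 ≤ d) (h : 7 * d ≤ 10 * c) :
    Real.exp (-(c * x)) ≤ (2 : ℝ) ^ (-(d * x)) := by
  rw [Real.rpow_def_of_pos (by norm_num : (0:ℝ) < 2)]
  apply Real.exp_le_exp.mpr
  have h1 : Real.log 2 ≤ 0.7 := by linarith [Real.log_two_lt_d9]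
  have h2 : Real.log 2 * (d * x) ≤ 0.7 * (d * x) :=
    mul_le_mul_of_nonneg_right h1 (mul_nonneg hd hx)
  have h3 : 0.7 * (d * x) ≤ c * x := by
    have : 0.7 * d ≤ c := by linarith
    nlinarith
  linarith

/-- `(1 - D / N) ^ k ≤ 2 ^ (- d L)` if `k D ≥ c L N` and `7 d ≤ 10 c`. -/
lemma pow_bound (N D L c d : ℝ) (k : ℕ) (hN : 0 < N) (hDN : D ≤ N) (hL : 0 ≤ L) (hd : 0 ≤ d)
    (hcd : 7 * d ≤ 10 * c) (hk : c * L * N ≤ k * D) :
    (1 - D / N) ^ k ≤ (2 : ℝ) ^ (-(d * L)) := by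
  have h1 : 0 ≤ 1 - D / N := by
    rw [sub_nonneg, div_le_one hN]; exact hDN
  have h2 : 1 - D / N ≤ Real.exp (-(D / N)) := by
    have := Real.add_one_le_exp (-(D / N))
    linarith
  calc (1 - D / N) ^ k ≤ (Real.exp (-(D / N))) ^ k := pow_le_pow_left₀ h1 h2 k
    _ = Real.exp (-(k * D / N)) := by
        rw [← Real.exp_nat_mul]
        congr 1
        ring
    _ ≤ Real.exp (-(c * L)) := by
        apply Real.exp_le_exp.mpr
        rw [neg_le_neg_iff, le_div_iff₀ hN]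
        exact hk
    _ ≤ (2 : ℝ) ^ (-(d * L)) := exp_le_two_rpow L c d hL hd hcd

lemma log_term (N L q : ℝ) (hN : 0 < N) (hq0 : 0 < q) (h9 : 9 ≤ L)
    (hq2 : 8 * q * L ^ 2 ≤ 2 * (2 : ℝ) ^ L) (hLN : (2 : ℝ) ^ L ≤ N) :
    q * (1 + Real.logb 2 N - L) ≤ N * 0.005 := by
  have h81 : (81 : ℝ) ≤ L ^ 2 := by
    have := pow_le_pow_left₀ (by norm_num : (0:ℝ) ≤ 9) h9 2
    linarith
  obtain ⟨t, ht⟩ : ∃ t, t = Real.logb 2 N - L := ⟨_, rfl⟩
  have ht0 : 0 ≤ t := by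
    rw [ht, sub_nonneg, Real.le_logb_iff_rpow_le (by norm_num) hN]
    exact hLN
  have hNt : N = (2 : ℝ) ^ L * (2 : ℝ) ^ t := by
    rw [← Real.rpow_add (by norm_num), ht]
    rw [show L + (Real.logb 2 N - L) = Real.logb 2 N by ring]
    rw [Real.rpow_logb (by norm_num) (by norm_num) hN]
  have h2t : 1 + 0.69 * t ≤ (2 : ℝ) ^ t := by
    rw [Real.rpow_def_of_pos (by norm_num : (0:ℝ) < 2)]
    have h1 := Real.add_one_le_exp (Real.log 2 * t)
    have h2 : 0.69 ≤ Real.log 2 := by linarith [Real.log_two_gt_d9]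
    have h3 : 0.69 * t ≤ Real.log 2 * t := mul_le_mul_of_nonneg_right h2 ht0
    linarith
  obtain ⟨y, hy⟩ : ∃ y, y = (2 : ℝ) ^ L := ⟨_, rfl⟩
  obtain ⟨T, hT⟩ : ∃ T, T = (2 : ℝ) ^ t := ⟨_, rfl⟩
  have hy0 : 0 < y := by rw [hy]; exact Real.rpow_pos_of_pos (by norm_num) _
  have hT0 : 0 < T := by rw [hT]; exact Real.rpow_pos_of_pos (by norm_num) _
  rw [← hy] at hq2 hNt
  rw [← hT] at h2t hNt
  have hq324 : q * 324 ≤ y := by
    have h1 : q * 81 ≤ q * L ^ 2 := mul_le_mul_of_nonneg_left h81 hq0.le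
    have h2 : 8 * q * L ^ 2 = 8 * (q * L ^ 2) := by ring
    rw [h2] at hq2
    linarith
  have h3 : 1 + Real.logb 2 N - L = 1 + t := by rw [ht]; ring
  rw [h3, hNt]
  have h4 : q * (1 + t) ≤ y / 324 * (1 + t) :=
    mul_le_mul_of_nonneg_right (by linarith) (by linarith)
  have h5 : (1 + t) ≤ 1.5 * T := by linarith
  have h6 : y / 324 * (1 + t) ≤ y / 324 * (1.5 * T) :=
    mul_le_mul_of_nonneg_left h5 (by positivity)
  have h8 : y / 324 * (1.5 * T) = y * T * (1.5 / 324) := by ring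
  have h9 : y * T * (1.5 / 324) ≤ y * T * 0.005 :=
    mul_le_mul_of_nonneg_left (by norm_num) (by positivity)
  linarith

lemma final_sum (N q L y E K : ℝ) (hN : 0 < N) (hqL : 0 < q * L)
    (hqLy : q * L ≤ y / 36) (hy512 : 512 ≤ y) (hqLN : q * L ≤ N / 72) (hqL18 : 18 ≤ q * L)
    (hE0 : 0 ≤ E) (hEy : E * y ≤ 0.34) (hK1 : K ≤ 0.84 * N / (q * L) + 4 + 3 * (N * E)) :
    K * (q * L + 1) + N * 0.005 < N := by
  obtain ⟨x, hx⟩ : ∃ x, x = q * L := ⟨_, rfl⟩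
  rw [← hx] at hqL hqLy hqLN hqL18 hK1 ⊢
  have hKm : K * (x + 1) ≤ (0.84 * N / x + 4 + 3 * (N * E)) * (x + 1) :=
    mul_le_mul_of_nonneg_right hK1 (by positivity)
  have hexp : (0.84 * N / x + 4 + 3 * (N * E)) * (x + 1) =
      0.84 * N + 0.84 * N / x + 4 * (x + 1) + 3 * N * (E * (x + 1)) := by
    field_simp
  have ht1 : 0.84 * N / x ≤ 0.84 * N / 18 :=
    div_le_div_of_nonneg_left (by positivity) (by norm_num) hqL18
  have ht3 : E * (x + 1) ≤ 0.0102 := by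
    have h1 : x + 1 ≤ 0.03 * y := by linarith
    calc E * (x + 1) ≤ E * (0.03 * y) := mul_le_mul_of_nonneg_left h1 hE0
      _ = 0.03 * (E * y) := by ring
      _ ≤ 0.0102 := by linarith
  have ht3' : 3 * N * (E * (x + 1)) ≤ 3 * N * 0.0102 :=
    mul_le_mul_of_nonneg_left ht3 (by positivity)
  have hN1296 : 1296 ≤ N := by linarith
  rw [hexp] at hKm
  have e1 : 0.84 * N / 18 ≤ 0.0467 * N := by linarith
  have e2 : 4 * (x + 1) ≤ 0.0556 * N + 0.0031 * N := by linarith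
  linarith

/-- The final numerical inequality. -/
theorem numeric (N L q K : ℝ) (k : ℕ) (hN : 0 < N) (hq : 2 ≤ q) (hL : 1 ≤ L)
    (hqN : 8 * q * L ^ 2 ≤ N) (hq2 : 8 * q * L ^ 2 ≤ 2 * (2 : ℝ) ^ L) (hLN : (2 : ℝ) ^ L ≤ N)
    (hk : k = Nat.ceil (0.28 * N / (q * L)))
    (hK : K + 2 ≤ 3 * (k + 1 +
        (N * ((2 : ℝ) ^ L) ^ 2 * (1 - (8 * q * L ^ 2) / N) ^ k +
          N * (1 - (8 * q * L ^ 2) / 2 / N) ^ k))) :
    K * (q * L + 1) + q * (1 + Real.logb 2 N - L) < N := by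
  have hL0 : 0 < L := by linarith
  have hq0 : 0 < q := by linarith
  have hqL : 0 < q * L := mul_pos hq0 hL0
  have h9 : 9 ≤ L := by
    apply nine_le L hL
    have : 16 * L ^ 2 ≤ 8 * q * L ^ 2 := by nlinarith [sq_nonneg L]
    linarith
  set D := 8 * q * L ^ 2 with hDdef
  have hD0 : 0 < D := by positivity
  -- bounds for k
  have hk1 : 0.28 * N / (q * L) ≤ (k : ℝ) := by rw [hk]; exact Nat.le_ceil _
  have hk2 : (k : ℝ) ≤ 0.28 * N / (q * L) + 1 := by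
    rw [hk]
    exact (Nat.ceil_lt_add_one (by positivity)).le
  have hkD : 2.24 * L * N ≤ k * D := by
    have h1 : 0.28 * N / (q * L) * D = 2.24 * L * N := by
      rw [hDdef]; field_simp; ring
    calc 2.24 * L * N = 0.28 * N / (q * L) * D := h1.symm
      _ ≤ k * D := mul_le_mul_of_nonneg_right hk1 hD0.le
  have hb1 : (1 - D / N) ^ k ≤ (2 : ℝ) ^ (-(3.2 * L)) :=
    pow_bound N D L 2.24 3.2 k hN hqN hL0.le (by norm_num) (by norm_num) hkD
  have hb2 : (1 - D / 2 / N) ^ k ≤ (2 : ℝ) ^ (-(1.6 * L)) :=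
    pow_bound N (D / 2) L 1.12 1.6 k hN (by linarith) hL0.le (by norm_num) (by norm_num)
      (by linarith)
  -- powers of two
  have hp1 : ((2 : ℝ) ^ L) ^ 2 * (2 : ℝ) ^ (-(3.2 * L)) = (2 : ℝ) ^ (-(1.2 * L)) := by
    rw [← Real.rpow_natCast, ← Real.rpow_mul (by norm_num), ← Real.rpow_add (by norm_num)]
    congr 1
    push_cast
    ring
  have hX : N * ((2 : ℝ) ^ L) ^ 2 * (1 - D / N) ^ k + N * (1 - D / 2 / N) ^ k ≤
      N * ((2 : ℝ) ^ (-(1.2 * L)) + (2 : ℝ) ^ (-(1.6 * L))) := by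
    have h1 : N * ((2 : ℝ) ^ L) ^ 2 * (1 - D / N) ^ k ≤
        N * ((2 : ℝ) ^ L) ^ 2 * (2 : ℝ) ^ (-(3.2 * L)) :=
      mul_le_mul_of_nonneg_left hb1 (by positivity)
    have h2 : N * (1 - D / 2 / N) ^ k ≤ N * (2 : ℝ) ^ (-(1.6 * L)) :=
      mul_le_mul_of_nonneg_left hb2 hN.le
    have h3 : N * ((2 : ℝ) ^ L) ^ 2 * (2 : ℝ) ^ (-(3.2 * L)) = N * (2 : ℝ) ^ (-(1.2 * L)) := by
      rw [mul_assoc, hp1]
    rw [h3] at h1
    rw [mul_add]
    linarith
  set y := (2 : ℝ) ^ L with hy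
  have hy0 : 0 < y := Real.rpow_pos_of_pos (by norm_num) _
  have hy512 : 512 ≤ y := by
    have : (2 : ℝ) ^ (9 : ℝ) ≤ (2 : ℝ) ^ L :=
      Real.rpow_le_rpow_of_exponent_le (by norm_num) h9
    have h2 : (2 : ℝ) ^ (9 : ℝ) = 512 := by
      rw [show (9 : ℝ) = ((9 : ℕ) : ℝ) by norm_num, Real.rpow_natCast]
      norm_num
    linarith
  -- q L ≤ y / 36
  have hqLy : q * L ≤ y / 36 := by
    have h1 : 8 * q * L * L ≤ 2 * y := by
      have : 8 * q * L * L = 8 * q * L ^ 2 := by ring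
      rw [this]; exact hq2
    have h2 : 8 * q * L * 9 ≤ 8 * q * L * L := by
      apply mul_le_mul_of_nonneg_left h9
      positivity
    linarith
  have hqLN : q * L ≤ N / 72 := by
    have h1 : 8 * q * L * L ≤ N := by
      have : 8 * q * L * L = 8 * q * L ^ 2 := by ring
      rw [this]; exact hqN
    have h2 : 8 * q * L * 9 ≤ 8 * q * L * L := by
      apply mul_le_mul_of_nonneg_left h9
      positivity
    linarith
  have hqL18 : 18 ≤ q * L := by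
    calc (18 : ℝ) = 2 * 9 := by norm_num
      _ ≤ q * L := mul_le_mul hq h9 (by norm_num) hq0.le
  -- exponentials
  have he1 : (2 : ℝ) ^ (-(1.2 * L)) * y ≤ 0.3 := by
    have h1 : (2 : ℝ) ^ (-(1.2 * L)) * y = (2 : ℝ) ^ (-(0.2 * L)) := by
      rw [hy, ← Real.rpow_add (by norm_num)]
      congr 1
      ring
    rw [h1]
    have h2 : (2 : ℝ) ^ (-(0.2 * L)) ≤ (2 : ℝ) ^ (-(1.8 : ℝ)) :=
      Real.rpow_le_rpow_of_exponent_le (by norm_num) (by linarith)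
    have h3 : (2 : ℝ) ^ (-(1.8 : ℝ)) ≤ 0.3 := by
      have h4 : ((2 : ℝ) ^ (-(1.8 : ℝ))) ^ 5 ≤ (0.3 : ℝ) ^ 5 := by
        rw [← Real.rpow_natCast, ← Real.rpow_mul (by norm_num)]
        have : (-(1.8 : ℝ)) * ((5 : ℕ) : ℝ) = -((9 : ℕ) : ℝ) := by norm_num
        rw [this, Real.rpow_neg (by norm_num), Real.rpow_natCast]
        norm_num
      exact le_of_pow_le_pow_left₀ (by norm_num) (by norm_num) h4
    linarith
  have he2 : (2 : ℝ) ^ (-(1.6 * L)) * y ≤ 0.04 := by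
    have h1 : (2 : ℝ) ^ (-(1.6 * L)) * y = (2 : ℝ) ^ (-(0.6 * L)) := by
      rw [hy, ← Real.rpow_add (by norm_num)]
      congr 1
      ring
    rw [h1]
    have h2 : (2 : ℝ) ^ (-(0.6 * L)) ≤ (2 : ℝ) ^ (-((5 : ℕ) : ℝ)) :=
      Real.rpow_le_rpow_of_exponent_le (by norm_num) (by push_cast; linarith)
    have h3 : (2 : ℝ) ^ (-((5 : ℕ) : ℝ)) = 1 / 32 := by
      rw [Real.rpow_neg (by norm_num : (0:ℝ) ≤ 2), Real.rpow_natCast]
      norm_num
    rw [h3] at h2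
    refine h2.trans ?_
    norm_num
  set E := (2 : ℝ) ^ (-(1.2 * L)) + (2 : ℝ) ^ (-(1.6 * L)) with hE
  have hE0 : 0 ≤ E := by positivity
  have hEy : E * y ≤ 0.34 := by
    rw [hE, add_mul]; linarith
  -- K ≤ 0.84 N / (q L) + 4 + 3 N E
  have hK1 : K ≤ 0.84 * N / (q * L) + 4 + 3 * (N * E) := by
    have : 3 * (0.28 * N / (q * L)) = 0.84 * N / (q * L) := by ring
    linarith
  have hfin := final_sum N q L y E K hN hqL hqLy hy512 hqLN hqL18 hE0 hEy hK1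
  have hlog := log_term N L q hN hq0 h9 hq2 hLN
  linarith

end Pool.Agent.Lib.Recon
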