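import Mathlib
import Pool.Agent.Lib.Recon.Local
import Pool.Agent.Lib.Recon.Numeric

/-!
Reconstruction of connected graphs with large local differences, graph form.
-/

set_option autoImplicit false
set_option linter.unusedSectionVars false

namespace Pool.Agent.Lib.Recon

open Finset

section

variable {V W : Type*} [Fintype V] [Fintype W] [DecidableEq V] [DecidableEq W]

/-- If any two vertices are twins, the graph is complete or empty, hence reconstructible. -/
theorem all_twins (G : SimpleGraph V) (H : SimpleGraph W) (f : V ≃ W)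
    (hyp : ∀ v, CardIso G H v (f v)) (hn : 3 ≤ Fintype.card V)
    (hall : ∀ u v, Tw G u v) :
    ∃ α : V ≃ W, ∀ x y, G.Adj x y ↔ H.Adj (α x) (α y) := by
  classical
  have htr : ∀ x y x' y' : V, x ≠ y → x' ≠ y' → (G.Adj x y ↔ G.Adj x' y') := by
    intro x y x' y' h h'
    apply twin_transfer G ∅ (fun u v _ _ _ => hall u v) (Finset.notMem_empty _)
      (Finset.notMem_empty _) (Finset.notMem_empty _) (Finset.notMem_empty _) _ _ h h'
    · intro a ha; exact absurd ha (Finset.notMem_empty a)
    · intro a ha; exact absurd ha (Finset.notMem_empty a)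
  refine ⟨f, fun x y => ?_⟩
  by_cases hxy : x = y
  · subst hxy
    simp
  · -- a third vertex
    have hcard : (({x, y} : Finset V)).card < Fintype.card V := by
      have := Finset.card_le_two (a := x) (b := y)
      omega
    obtain ⟨v, hv⟩ : ∃ v, v ∉ ({x, y} : Finset V) := by
      by_contra hcon
      push Not at hcon
      have : ({x, y} : Finset V) = Finset.univ := Finset.eq_univ_iff_forall.mpr hcon
      rw [this, Finset.card_univ] at hcard
      exact lt_irrefl _ hcard
    have hvx : v ≠ x := fun h => hv (by simp [h])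
    have hvy : v ≠ y := fun h => hv (by simp [h])
    obtain ⟨σ, h1, h2⟩ := hyp v
    have hx' : σ.symm (f x) ≠ v := by
      intro h
      rw [Equiv.symm_apply_eq, h1] at h
      exact hvx (f.injective h).symm
    have hy' : σ.symm (f y) ≠ v := by
      intro h
      rw [Equiv.symm_apply_eq, h1] at h
      exact hvy (f.injective h).symm
    have hne : σ.symm (f x) ≠ σ.symm (f y) := by
      intro h
      exact hxy (f.injective (σ.symm.injective h))
    rw [htr x y _ _ hxy hne, h2 _ _ hx' hy']
    simp

lemma two_le_deg (G : SimpleGraph V) (hG : G.Connected) (hn : 3 ≤ Fintype.card V) :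
    ∃ v, 2 ≤ (nb G v).card := by
  classical
  by_contra hcon
  push Not at hcon
  have : Nontrivial V := Fintype.one_lt_card_iff_nontrivial.mp (by omega)
  obtain ⟨u⟩ : Nonempty V := inferInstance
  obtain ⟨b, hb⟩ : ∃ b, G.Adj u b := hG.preconnected.exists_adj_of_nontrivial u
  have huniq : ∀ x y z, G.Adj x y → G.Adj x z → y = z := by
    intro x y z hy hz
    have h1 := hcon x
    have h2 : (nb G x).card ≤ 1 := by omega
    exact Finset.card_le_one.mp h2 y (mem_nb.mpr hy) z (mem_nb.mpr hz)
  have hclosed : ∀ x y, (x = u ∨ x = b) → G.Adj x y → (y = u ∨ y = b) := by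
    intro x y hx hxy
    rcases hx with rfl | rfl
    · exact Or.inr (huniq _ _ _ hxy hb)
    · exact Or.inl (huniq _ _ _ hxy hb.symm)
  have hwalk : ∀ (x y : V), G.Walk x y → (x = u ∨ x = b) → (y = u ∨ y = b) := by
    intro x y p
    induction p with
    | nil => exact fun h => h
    | cons h _ ih => exact fun hx => ih (hclosed _ _ hx h)
  have hall : ∀ y, y = u ∨ y = b := by
    intro y
    obtain ⟨p⟩ := hG.preconnected u y
    exact hwalk u y p (Or.inl rfl)
  have : Fintype.card V ≤ 2 := by
    rw [← Finset.card_univ]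
    refine le_trans (Finset.card_le_card (t := {u, b}) ?_) Finset.card_le_two
    intro y _
    rcases hall y with h | h <;> simp [h]
  omega

/-- Reconstruction theorem for connected graphs with large local differences. -/
theorem local_recon (G : SimpleGraph V) (H : SimpleGraph W) (f : V ≃ W)
    (hyp : ∀ v, CardIso G H v (f v)) (hn : 3 ≤ Fintype.card V) (hG : G.Connected) (Δ s : ℕ)
    (hΔ : ∀ v, (nb G v).card ≤ Δ)
    (hsize : ∀ u, ∀ S : Finset V, (∀ v ∈ S, Tw G u v) → S.card ≤ s)
    (hdiff : ∀ u v, ¬ Tw G u v →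
      8 * ((s : ℝ) + 1) * (Real.logb 2 Δ) ^ 2 ≤ ((dset G u v).card : ℝ)) :
    ∃ α : V ≃ W, ∀ x y, G.Adj x y ↔ H.Adj (α x) (α y) := by
  classical
  by_cases hall : ∀ u v, Tw G u v
  · exact all_twins G H f hyp hn hall
  push Not at hall
  obtain ⟨u0, v0, h00⟩ := hall
  -- the actual maximum degree
  obtain ⟨vm, hvm⟩ : ∃ vm, ∀ v, (nb G v).card ≤ (nb G vm).card := by
    have : Nonempty V := Fintype.card_pos_iff.mp (by omega)
    obtain ⟨vm, _, h⟩ := Finset.exists_max_image (Finset.univ : Finset V)
      (fun v => (nb G v).card) Finset.univ_nonempty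
    exact ⟨vm, fun v => h v (Finset.mem_univ v)⟩
  set Δ' := (nb G vm).card with hΔ'
  have hΔ'2 : 2 ≤ Δ' := by
    obtain ⟨v, hv⟩ := two_le_deg G hG hn
    exact hv.trans (hvm v)
  have hΔ'Δ : Δ' ≤ Δ := hΔ vm
  have hΔ'n : Δ' ≤ Fintype.card V := Finset.card_le_univ _
  set L := Real.logb 2 Δ' with hL
  set N : ℝ := ((Fintype.card V : ℕ) : ℝ) with hN
  have hN0 : 0 < N := by rw [hN]; exact_mod_cast (by omega : 0 < Fintype.card V)
  have hΔ'R : (0 : ℝ) < Δ' := by exact_mod_cast (by omega : 0 < Δ')
  have hL1 : 1 ≤ L := by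
    rw [hL, Real.le_logb_iff_rpow_le (by norm_num) hΔ'R, Real.rpow_one]
    exact_mod_cast hΔ'2
  have h2L : (2 : ℝ) ^ L = Δ' := Real.rpow_logb (by norm_num) (by norm_num) hΔ'R
  have hLΔ : L ≤ Real.logb 2 Δ := by
    apply Real.logb_le_logb_of_le (by norm_num) hΔ'R
    exact_mod_cast hΔ'Δ
  have hs1 : 1 ≤ s := by
    have := hsize u0 {u0} (by
      intro v hv
      rw [Finset.mem_singleton.mp hv]
      intro w _ _
      exact Iff.rfl)
    simpa using this
  set q : ℝ := (s : ℝ) + 1 with hq
  have hq2 : 2 ≤ q := by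
    have : (1 : ℝ) ≤ s := by exact_mod_cast hs1
    linarith
  have hdiff' : ∀ u v, ¬ Tw G u v → 8 * q * L ^ 2 ≤ ((dset G u v).card : ℝ) := by
    intro u v huv
    refine le_trans ?_ (hdiff u v huv)
    apply mul_le_mul_of_nonneg_left _ (by linarith)
    exact pow_le_pow_left₀ (by linarith) hLΔ 2
  have hDN : 8 * q * L ^ 2 ≤ N := by
    refine (hdiff' u0 v0 h00).trans ?_
    rw [hN]
    exact_mod_cast Finset.card_le_univ _
  have hD2 : 8 * q * L ^ 2 ≤ 2 * (2 : ℝ) ^ L := by
    refine (hdiff' u0 v0 h00).trans ?_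
    rw [h2L]
    have h1 := card_dset_le G u0 v0
    have h2 := hvm u0
    have h3 := hvm v0
    have h4 : (dset G u0 v0).card ≤ 2 * Δ' := by omega
    exact_mod_cast h4
  have hLN : (2 : ℝ) ^ L ≤ N := by
    rw [h2L, hN]
    exact_mod_cast hΔ'n
  have hD0 : 0 ≤ 8 * q * L ^ 2 := by positivity
  obtain ⟨A, hA, hAdist, hAc⟩ := exists_local G hG (by omega) Δ' hvm (8 * q * L ^ 2) hD0 hDN
    hdiff' (Nat.ceil (0.28 * N / (q * L)))
  rw [← hN, ← h2L] at hAc
  have hnum := numeric N L q (A.card : ℝ) _ hN0 hq2 hL1 hDN hD2 hLN rfl hAc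
  have hApos : 0 < A.card := Finset.card_pos.mpr (built_nonempty G hA)
  have hAle : A.card ≤ Fintype.card V := Finset.card_le_univ A
  -- apply the master theorem
  apply master G H f hyp A s
  · intro u v hu hv h
    exact hAdist u v hu hv h
  · intro u hu
    apply hsize u
    intro v hv
    simp only [cls, Finset.mem_filter, Finset.mem_univ, true_and] at hv
    exact hAdist u v hu hv.1 hv.2
  · have he := card_embs_le G Δ' (fun v S hS => by
      refine le_trans (Finset.card_le_card ?_) (hvm v)
      intro w hw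
      exact mem_nb.mpr (hS w hw)) A hA
    have hr : 1 ≤ (AutEmbs G A).card := by
      rw [Nat.one_le_iff_ne_zero, ← Nat.pos_iff_ne_zero, Finset.card_pos]
      refine ⟨fun a => a, ?_⟩
      simp only [AutEmbs, Finset.mem_filter, Finset.mem_univ, true_and]
      exact ⟨Equiv.refl V, fun x y => Iff.rfl, fun a => rfl⟩
    have hmain : (2 * (Fintype.card V * Δ' ^ (A.card - 1))) ^ (s + 1) <
        2 ^ (Fintype.card V - A.card) := by
      have hreal : ((2 * (N * (Δ' : ℝ) ^ (A.card - 1))) ^ (s + 1) : ℝ) <
          (2 : ℝ) ^ (Fintype.card V - A.card) := by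
        rw [← Real.logb_lt_logb_iff (b := 2) (by norm_num) (by positivity) (by positivity)]
        rw [Real.logb_pow, Real.logb_pow, Real.logb_mul (by norm_num) (by positivity),
          Real.logb_mul (by positivity) (by positivity), Real.logb_pow,
          Real.logb_self_eq_one (by norm_num), ← hL]
        rw [Nat.cast_sub hAle, Nat.cast_sub hApos]
        push_cast
        rw [← hN, ← hq]
        nlinarith [hnum]
      rw [hN] at hreal
      exact_mod_cast hreal
    calc (2 * (Embs G A G).card) ^ (s + 1)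
        ≤ (2 * (Fintype.card V * Δ' ^ (A.card - 1))) ^ (s + 1) :=
          Nat.pow_le_pow_left (Nat.mul_le_mul_left 2 he) _
      _ < 2 ^ (Fintype.card V - A.card) := hmain
      _ ≤ 2 ^ (Fintype.card V - A.card) * (AutEmbs G A).card ^ (s + 1) := by
          apply Nat.le_mul_of_pos_right
          exact Nat.pow_pos hr

end

end Pool.Agent.Lib.Recon
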