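import Mathlib
import Pool.Agent.Lib.Recon.LocalMain
import Pool.Agent.Lib.Recon.CliquePoset

/-!
Clique lattice form of the reconstruction theorem for graphs with large local differences.
-/

set_option autoImplicit false
set_option linter.unusedSectionVars false

namespace Pool.Agent.Lib.Recon

open Finset

section

variable {V W : Type*} [Fintype V] [Fintype W]

lemma CardIso.compl {G : SimpleGraph V} {H : SimpleGraph W} {v : V} {w : W}
    (h : CardIso G H v w) : CardIso Gᶜ Hᶜ v w := by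
  obtain ⟨σ, h1, h2⟩ := h
  refine ⟨σ, h1, fun x y hx hy => ?_⟩
  rw [SimpleGraph.compl_adj, SimpleGraph.compl_adj, h2 x y hx hy, ne_eq, ne_eq,
    σ.injective.eq_iff]

lemma iso_of_compl {G : SimpleGraph V} {H : SimpleGraph W}
    (h : ∃ α : V ≃ W, ∀ x y, Gᶜ.Adj x y ↔ Hᶜ.Adj (α x) (α y)) :
    ∃ α : V ≃ W, ∀ x y, G.Adj x y ↔ H.Adj (α x) (α y) := by
  obtain ⟨α, hα⟩ := h
  refine ⟨α, fun x y => ?_⟩
  by_cases hxy : x = y
  · subst hxy; simp
  · have h1 := hα x y
    rw [SimpleGraph.compl_adj, SimpleGraph.compl_adj] at h1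
    have h2 : α x ≠ α y := fun h => hxy (α.injective h)
    constructor
    · intro h
      by_contra hcon
      exact (h1.mpr ⟨h2, hcon⟩).2 h
    · intro h
      by_contra hcon
      exact (h1.mp ⟨hxy, hcon⟩).2 h

lemma tw_compl {G : SimpleGraph V} {u v : V} (h : Tw G u v) : Tw Gᶜ u v := by
  intro w hu hv
  rw [SimpleGraph.compl_adj, SimpleGraph.compl_adj, h w hu hv]
  simp [hu, hv]

lemma tw_compl_iff {G : SimpleGraph V} {u v : V} : Tw Gᶜ u v ↔ Tw G u v := by
  constructor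
  · intro h
    have := tw_compl h
    rwa [compl_compl] at this
  · exact tw_compl

lemma dset_compl [DecidableEq V] (G : SimpleGraph V) (u v : V) : dset Gᶜ u v = dset G u v := by
  ext w
  rw [mem_dset, mem_dset]
  constructor
  · rintro ⟨h1, h2, h3⟩
    refine ⟨h1, h2, fun h => h3 ?_⟩
    rw [SimpleGraph.compl_adj, SimpleGraph.compl_adj, h]
    simp [h1, h2]
  · rintro ⟨h1, h2, h3⟩
    refine ⟨h1, h2, fun h => h3 ?_⟩
    rw [SimpleGraph.compl_adj, SimpleGraph.compl_adj] at h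
    simp only [ne_eq, h1, not_false_eq_true, true_and, h2] at h
    exact not_iff_not.mp h

/-- Clique lattice form. -/
theorem local_clique (G : SimpleGraph V) (hn : 3 ≤ Fintype.card V) (Δ s : ℕ)
    (hdeg : (G.Connected ∧ ∀ v, (G.neighborSet v).ncard ≤ Δ) ∨
      (Gᶜ.Connected ∧ ∀ v, (Gᶜ.neighborSet v).ncard ≤ Δ))
    (hsize : ∀ u, {v | ∀ w, w ≠ u → w ≠ v → (G.Adj w u ↔ G.Adj w v)}.ncard ≤ s)
    (hdiff : ∀ u v, (∀ w, w ≠ u → w ≠ v → (G.Adj w u ↔ G.Adj w v)) ∨
      8 * ((s : ℝ) + 1) * (Real.logb 2 Δ) ^ 2 ≤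
        {w | w ≠ u ∧ w ≠ v ∧ ¬ (G.Adj w u ↔ G.Adj w v)}.ncard)
    (H : SimpleGraph W) (f : V ≃ W)
    (hdeck : ∀ v : V,
      Nonempty ({s : Finset V // s.Nonempty ∧ G.IsClique (s : Set V) ∧ v ∉ s} ≃o
        {t : Finset W // t.Nonempty ∧ H.IsClique (t : Set W) ∧ f v ∉ t})) :
    Nonempty ({s : Finset V // s.Nonempty ∧ G.IsClique (s : Set V)} ≃o
      {t : Finset W // t.Nonempty ∧ H.IsClique (t : Set W)}) := by
  classical
  apply orderIso_of_iso
  have hyp : ∀ v, CardIso G H v (f v) := by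
    intro v
    obtain ⟨e⟩ := hdeck v
    exact cardIso_of_orderIso G H f v e
  have hsize' : ∀ u, ∀ S : Finset V, (∀ v ∈ S, Tw G u v) → S.card ≤ s := by
    intro u S hS
    refine le_trans ?_ (hsize u)
    rw [← Set.ncard_coe_finset S]
    apply Set.ncard_le_ncard _ (Set.toFinite _)
    intro v hv
    exact hS v (Finset.mem_coe.mp hv)
  have hdiff' : ∀ u v, ¬ Tw G u v →
      8 * ((s : ℝ) + 1) * (Real.logb 2 Δ) ^ 2 ≤ ((dset G u v).card : ℝ) := by
    intro u v huv
    rcases hdiff u v with h | h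
    · exact absurd h huv
    · refine h.trans (le_of_eq ?_)
      rw [← Set.ncard_coe_finset (dset G u v)]
      congr 2
      ext w
      rw [Finset.mem_coe, mem_dset]
      rfl
  have hnb : ∀ (K : SimpleGraph V) (v : V), (nb K v).card = (K.neighborSet v).ncard := by
    intro K v
    rw [← Set.ncard_coe_finset (nb K v)]
    congr 1
    ext w
    rw [Finset.mem_coe, mem_nb]
    rfl
  rcases hdeg with ⟨hc, hΔ⟩ | ⟨hc, hΔ⟩
  · apply local_recon G H f hyp hn hc Δ s _ hsize' hdiff'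
    intro v
    rw [hnb]
    exact hΔ v
  · apply iso_of_compl
    apply local_recon Gᶜ Hᶜ f (fun v => (hyp v).compl) hn hc Δ s
    · intro v
      rw [hnb]
      exact hΔ v
    · intro u S hS
      exact hsize' u S (fun v hv => tw_compl_iff.mp (hS v hv))
    · intro u v huv
      rw [dset_compl]
      exact hdiff' u v (fun h => huv (tw_compl_iff.mpr h))

end

end Pool.Agent.Lib.Recon
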